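import Pool.Agent.Lib_helper18.PENMF.Edge
import Pool.Agent.Lib_helper88.NC.Ok
import Pool.Agent.Lib_helper18.PENKF.PE1

/-!
# PENM: (MAR) and (NEG) of helper88's Part I (helper18)
-/

set_option autoImplicit false

namespace Pool.Agent.PENM

open Finset Pool.Agent.PENT Pool.Agent.PATH.NC

/-- the windows -/
noncomputable def wins (p : Prm 10) : Finset (ℕ × ℕ) :=
  ((range (⌈(p.ep + p.ew) / p.ew⌉₊ + 1)) ×ˢ (range (⌈(p.ep + p.ew) / p.ew⌉₊ + 1))).filter
    (fun i => p.em + i.1 * p.ew ≤ p.ep + p.ew ∧ p.em + i.2 * p.ew ≤ p.ep + p.ew)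

/-- one coordinate -/
theorem win_one {em ep ew X t : ℝ} (hX : 1 < X) (hew : 0 < ew) (hem : 0 < em) (h1 : X ^ em ≤ t)
    (h2 : t ≤ X ^ (ep + ew)) : ∃ i : ℕ, i < ⌈(ep + ew) / ew⌉₊ + 1 ∧
      em + i * ew ≤ ep + ew ∧ X ^ (em + i * ew) ≤ t ∧ t ≤ X ^ (em + i * ew + ew) := by
  have hX0 : 0 < X := by linarith
  have ht : 0 < t := lt_of_lt_of_le (Real.rpow_pos_of_pos hX0 _) h1
  have hl : 0 < Real.log X := Real.log_pos hX
  set y : ℝ := Real.log t / Real.log X with hy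
  have hty : t = X ^ y := by
    rw [Real.rpow_def_of_pos hX0, hy, mul_div_cancel₀ _ hl.ne', Real.exp_log ht]
  rw [hty] at h1 h2
  have e1 : em ≤ y := (Real.rpow_le_rpow_left_iff hX).1 h1
  have e2 : y ≤ ep + ew := (Real.rpow_le_rpow_left_iff hX).1 h2
  set i := ⌊(y - em) / ew⌋₊ with hi
  have f1 : (i : ℝ) ≤ (y - em) / ew := Nat.floor_le (div_nonneg (by linarith) hew.le)
  have f2 : (y - em) / ew < i + 1 := Nat.lt_floor_add_one _
  rw [le_div_iff₀ hew] at f1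
  rw [div_lt_iff₀ hew] at f2
  refine ⟨i, ?_, by linarith, ?_, ?_⟩
  · have h3 : (i : ℝ) ≤ (ep + ew) / ew := by
      rw [le_div_iff₀ hew]
      linarith
    have h4 : (i : ℝ) ≤ (⌈(ep + ew) / ew⌉₊ : ℝ) := h3.trans (Nat.le_ceil _)
    have : i ≤ ⌈(ep + ew) / ew⌉₊ := by exact_mod_cast h4
    omega
  · rw [hty]
    exact Real.rpow_le_rpow_of_exponent_le hX.le (by linarith)
  · rw [hty]
    exact Real.rpow_le_rpow_of_exponent_le hX.le (by nlinarith)

/-- every member lies in a window -/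
theorem win_cover {p : Prm 10} {δ τ C1 : ℝ} (h : PO p δ τ) : ∃ X₀ : ℕ, 2 ≤ X₀ ∧
    ∀ X ≥ X₀, ∀ σ ∈ FT p C1 X, ∃ i ∈ wins p, σ ∈ FW p C1 X (p.em + i.1 * p.ew)
      (p.em + i.2 * p.ew) := by
  obtain ⟨X₀, hX₀, H⟩ := isPt_of h.ok h.small
  obtain ⟨⟨a1, a2, a3, a4, a5, a6, a7⟩, -⟩ := prm_nums h.ok h.small
  refine ⟨X₀, hX₀, fun X hX σ hσ => ?_⟩
  have g := (mem_FT h.ok.c10).1 hσ
  obtain ⟨hp, -⟩ := H X hX σ.2 g.gp
  have hX1 : (1 : ℝ) < X := by
    have : 2 ≤ X := hX₀.trans hX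
    have : (2 : ℝ) ≤ X := by exact_mod_cast this
    linarith
  have hnr : ∀ i : Fin 11, 0 < i.val → i.val < 10 →
      (PENK.nr (rt 0 σ.2 i) : ℝ) = (nm (σ.2 i) : ℝ) := by
    intro i h1 h2
    obtain ⟨b1, b2⟩ := g.gp.pos i (by omega) (by omega)
    have e : (PENK.nr (σ.2 i) : ℤ) = nm (σ.2 i) := by
      unfold PENK.nr nm
      omega
    have e2 : rt 0 σ.2 i = σ.2 i := by simp [rt]
    rw [e2]
    exact_mod_cast congrArg (Int.cast : ℤ → ℝ) e
  have l1 := hp.lo 1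
  have l2 := hp.hi 1
  have l3 := hp.lo 9
  have l4 := hp.hi 9
  rw [hnr 1 (by decide) (by decide)] at l1 l2
  rw [hnr 9 (by decide) (by decide)] at l3 l4
  have q1 : (qN p p.em (p.ep + p.ew) p.em (p.ep + p.ew)).lo 1 = p.em := by simp [qN]
  have q2 : (qN p p.em (p.ep + p.ew) p.em (p.ep + p.ew)).hi 1 = p.ep + p.ew := by simp [qN]
  have q3 : (qN p p.em (p.ep + p.ew) p.em (p.ep + p.ew)).lo 9 = p.em := by
    have e1 : ((9 : Fin 11) = 0 ∨ (9 : Fin 11) = 10) = False := by decide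
    have e2 : ((9 : Fin 11) = 1) = False := by decide
    simp only [qN, e1, e2, if_false, if_true]
  have q4 : (qN p p.em (p.ep + p.ew) p.em (p.ep + p.ew)).hi 9 = p.ep + p.ew := by
    have e1 : ((9 : Fin 11) = 0 ∨ (9 : Fin 11) = 10) = False := by decide
    have e2 : ((9 : Fin 11) = 1) = False := by decide
    simp only [qN, e1, e2, if_false, if_true]
  rw [q1] at l1
  rw [q2] at l2
  rw [q3] at l3
  rw [q4] at l4
  obtain ⟨i, i1, i2, i3, i4⟩ := win_one hX1 a1 a2 l1 l2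
  obtain ⟨k, k1, k2, k3, k4⟩ := win_one hX1 a1 a2 l3 l4
  refine ⟨(i, k), ?_, ?_⟩
  · unfold wins
    rw [Finset.mem_filter, Finset.mem_product, Finset.mem_range, Finset.mem_range]
    exact ⟨⟨i1, k1⟩, i2, k2⟩
  · unfold FW
    rw [Finset.mem_filter]
    exact ⟨hσ, i3, i4, k3, k4⟩

theorem mar_mono {Tau : Type} {s : Finset Tau} {w : Tau → ℝ} (hw : ∀ τ, 0 ≤ w τ) {N : Tau → ℕ}
    {ι : Type} (I : Finset ι) (S : ι → Finset Tau) (hc : ∀ τ ∈ s, ∃ i ∈ I, τ ∈ S i) (n : ℕ) :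
    mar s w N n ≤ ∑ i ∈ I, mar (S i) w N n := by
  classical
  unfold mar
  have h1 : ∀ i, ∑ τ ∈ (S i).filter (fun τ => N τ = n), w τ ≥
      ∑ τ ∈ s.filter (fun τ => N τ = n), if τ ∈ S i then w τ else 0 := by
    intro i
    rw [← Finset.sum_filter]
    apply Finset.sum_le_sum_of_subset_of_nonneg
    · intro τ hτ
      rw [Finset.mem_filter, Finset.mem_filter] at hτ
      rw [Finset.mem_filter]
      exact ⟨hτ.2, hτ.1.2⟩
    · intro τ _ _
      exact hw τ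
  calc ∑ τ ∈ s.filter (fun τ => N τ = n), w τ
      ≤ ∑ τ ∈ s.filter (fun τ => N τ = n), ∑ i ∈ I, if τ ∈ S i then w τ else 0 := by
        apply Finset.sum_le_sum
        intro τ hτ
        obtain ⟨i, hi, hi2⟩ := hc τ (Finset.mem_filter.1 hτ).1
        calc w τ = if τ ∈ S i then w τ else 0 := by rw [if_pos hi2]
          _ ≤ _ := by
            apply Finset.single_le_sum (f := fun i => if τ ∈ S i then w τ else 0) _ hi
            intro i _
            show 0 ≤ if τ ∈ S i then w τ else 0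
            split_ifs
            · exact hw τ
            · exact le_rfl
    _ = ∑ i ∈ I, ∑ τ ∈ s.filter (fun τ => N τ = n), if τ ∈ S i then w τ else 0 :=
        Finset.sum_comm
    _ ≤ _ := Finset.sum_le_sum fun i _ => h1 i

/-- (MAR) for admissible parameters -/
theorem mar_PO {p : Prm 10} {δ τ C1 : ℝ} (h : PO p δ τ) (hC1 : 1 ≤ C1) (hDGN : DGN p C1)
    (hDG : DG p C1) : MAR p C1 := by
  classical
  obtain ⟨CD, η, hη, hη1, XD, hD⟩ := hDGN
  obtain ⟨CM, η', -, -, XM, hM⟩ := hDG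
  have hw := fun X : ℕ => wT_nonneg p X
  have key : ∀ (j : Fin 10) (i : ℕ × ℕ), ∃ C : ℝ, 0 ≤ C ∧ ∃ X₀ : ℕ, i ∈ wins p → ∀ X ≥ X₀,
      ∀ E : Finset ℕ, ∑ n ∈ E, mar (FW p C1 X (p.em + i.1 * p.ew) (p.em + i.2 * p.ew)) (wT p X)
        (fun σ => (bT j.castSucc σ).2.1.natAbs) n ^ (1 + η) ≤
        C * X * Real.log X ^ (-mE 10 * (1 + η)) := by
    intro j i
    by_cases hi : i ∈ wins p
    · have hew := h.ok.ew0
      have hi' := hi
      unfold wins at hi'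
      rw [Finset.mem_filter] at hi'
      have e1 : p.em ≤ p.em + i.1 * p.ew := by
        have : (0 : ℝ) ≤ i.1 * p.ew := mul_nonneg (Nat.cast_nonneg _) hew.le
        linarith
      have e2 : p.em ≤ p.em + i.2 * p.ew := by
        have : (0 : ℝ) ≤ i.2 * p.ew := mul_nonneg (Nat.cast_nonneg _) hew.le
        linarith
      obtain ⟨C, hC, X₀, H⟩ := edge_W h hC1 hη hη1 hD (fun X hX => (hM X hX).1) j e1 hi'.2.1 e2
        hi'.2.2
      exact ⟨C, hC, X₀, fun _ => H⟩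
    · exact ⟨0, le_rfl, 0, fun h => absurd h hi⟩
  choose C hC X₀ H using key
  obtain ⟨X₁, hX₁, hcov⟩ := win_cover (C1 := C1) h
  set N : ℝ := ((wins p).card : ℝ) ^ η with hN
  set Cs : ℝ := ∑ j : Fin 10, ∑ i ∈ wins p, C j i with hCs
  set Xs : ℕ := ∑ j : Fin 10, ∑ i ∈ wins p, X₀ j i with hXs
  refine ⟨N * Cs, η, hη, max X₁ Xs, fun X hX j E => ?_⟩
  have y1 : X₁ ≤ X := (le_max_left _ _).trans hX
  have y2 : Xs ≤ X := (le_max_right _ _).trans hX
  have hX0 : (0 : ℝ) ≤ X := Nat.cast_nonneg _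
  have hX1 : (1 : ℝ) ≤ X := by
    have : 2 ≤ X := hX₁.trans y1
    have : (2 : ℝ) ≤ X := by exact_mod_cast this
    linarith
  have hN0 : 0 ≤ N := Real.rpow_nonneg (Nat.cast_nonneg _) _
  -- the marginal
  have e1 : ∀ n, (∑ q ∈ AW C1 X, ∑ u ∈ (GS p X).filter (fun u => nj q u j = n), W p X q u) =
      mar (FT p C1 X) (wT p X) (fun σ => (bT j.castSucc σ).2.1.natAbs) n := by
    intro n
    have e2 : ∑ q ∈ AW C1 X, ∑ u ∈ (GS p X).filter (fun u => nj q u j = n), W p X q u =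
        ∑ σ ∈ ((AW C1 X) ×ˢ (GS p X)).filter (fun σ => nj σ.1 σ.2 j = n), wT p X σ := by
      rw [Finset.sum_filter, Finset.sum_product]
      apply Finset.sum_congr rfl
      intro q _
      rw [Finset.sum_filter]
      rfl
    rw [e2]
    unfold mar
    symm
    apply Finset.sum_subset_zero_on_sdiff
    · intro σ hσ
      rw [Finset.mem_filter] at hσ ⊢
      have g := (mem_FT h.ok.c10).1 hσ.1
      have hσ1 := hσ.1
      unfold FT at hσ1
      rw [Finset.mem_filter] at hσ1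
      refine ⟨hσ1.1, ?_⟩
      rw [← hσ.2]
      exact (RB_nj j g).symm
    · intro σ hσ
      rw [Finset.mem_sdiff, Finset.mem_filter, Finset.mem_filter] at hσ
      by_contra hne
      apply hσ.2
      have hmem : σ ∈ FT p C1 X := by
        unfold FT
        rw [Finset.mem_filter]
        exact ⟨hσ.1.1, hne⟩
      refine ⟨hmem, ?_⟩
      have g := (mem_FT h.ok.c10).1 hmem
      have := RB_nj j g
      simp only
      rw [this]
      exact hσ.1.2
    · intro σ _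
      rfl
  have e3 : ∀ n, mar (FT p C1 X) (wT p X) (fun σ => (bT j.castSucc σ).2.1.natAbs) n ^ (1 + η) ≤
      N * ∑ i ∈ wins p, mar (FW p C1 X (p.em + i.1 * p.ew) (p.em + i.2 * p.ew)) (wT p X)
        (fun σ => (bT j.castSucc σ).2.1.natAbs) n ^ (1 + η) := by
    intro n
    have f1 := mar_mono (hw X) (N := fun σ => (bT j.castSucc σ).2.1.natAbs) (wins p)
      (fun i => FW p C1 X (p.em + i.1 * p.ew) (p.em + i.2 * p.ew)) (s := FT p C1 X)
      (fun σ hσ => hcov X y1 σ hσ) n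
    have f2 := Real.rpow_le_rpow (mar_nonneg _ (hw X) _ n) f1 (by linarith : (0 : ℝ) ≤ 1 + η)
    refine f2.trans ?_
    have f3 := Real.rpow_sum_le_const_mul_sum_rpow_of_nonneg (s := wins p)
      (f := fun i => mar (FW p C1 X (p.em + i.1 * p.ew) (p.em + i.2 * p.ew)) (wT p X)
        (fun σ => (bT j.castSucc σ).2.1.natAbs) n) (by linarith : (1 : ℝ) ≤ 1 + η)
      (fun i _ => mar_nonneg _ (hw X) _ n)
    rw [show (1 + η - 1 : ℝ) = η by ring] at f3
    exact f3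
  have e4 : ∀ i ∈ wins p, ∑ n ∈ E, mar (FW p C1 X (p.em + i.1 * p.ew) (p.em + i.2 * p.ew))
      (wT p X) (fun σ => (bT j.castSucc σ).2.1.natAbs) n ^ (1 + η) ≤
        C j i * (X * Real.log X ^ (-mE 10 * (1 + η))) := by
    intro i hi
    rw [← mul_assoc]
    refine H j i hi X (le_trans ?_ y2) E
    rw [hXs]
    refine le_trans ?_ (Finset.single_le_sum (f := fun j => ∑ i ∈ wins p, X₀ j i)
      (fun _ _ => Nat.zero_le _) (Finset.mem_univ j))
    exact Finset.single_le_sum (f := fun i => X₀ j i) (fun _ _ => Nat.zero_le _) hi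
  have hpos : 0 ≤ X * Real.log X ^ (-mE 10 * (1 + η)) :=
    mul_nonneg hX0 (Real.rpow_nonneg (Real.log_nonneg hX1) _)
  calc ∑ n ∈ E, (∑ q ∈ AW C1 X, ∑ u ∈ (GS p X).filter (fun u => nj q u j = n),
        W p X q u) ^ (1 + η)
      = ∑ n ∈ E, mar (FT p C1 X) (wT p X) (fun σ => (bT j.castSucc σ).2.1.natAbs) n ^ (1 + η) :=
        Finset.sum_congr rfl fun n _ => by rw [e1 n]
    _ ≤ ∑ n ∈ E, N * ∑ i ∈ wins p, mar (FW p C1 X (p.em + i.1 * p.ew) (p.em + i.2 * p.ew))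
        (wT p X) (fun σ => (bT j.castSucc σ).2.1.natAbs) n ^ (1 + η) :=
        Finset.sum_le_sum fun n _ => e3 n
    _ = N * ∑ i ∈ wins p, ∑ n ∈ E, mar (FW p C1 X (p.em + i.1 * p.ew) (p.em + i.2 * p.ew))
        (wT p X) (fun σ => (bT j.castSucc σ).2.1.natAbs) n ^ (1 + η) := by
        rw [← Finset.mul_sum, Finset.sum_comm]
    _ ≤ N * ∑ i ∈ wins p, C j i * (X * Real.log X ^ (-mE 10 * (1 + η))) :=
        mul_le_mul_of_nonneg_left (Finset.sum_le_sum e4) hN0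
    _ = N * ((∑ i ∈ wins p, C j i) * (X * Real.log X ^ (-mE 10 * (1 + η)))) := by
        rw [Finset.sum_mul]
    _ ≤ N * (Cs * (X * Real.log X ^ (-mE 10 * (1 + η)))) := by
        apply mul_le_mul_of_nonneg_left _ hN0
        apply mul_le_mul_of_nonneg_right _ hpos
        exact Finset.single_le_sum (f := fun j => ∑ i ∈ wins p, C j i)
          (fun j _ => Finset.sum_nonneg fun i _ => hC j i) (Finset.mem_univ j)
    _ = N * Cs * X * Real.log X ^ (-mE 10 * (1 + η)) := by ring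

open Classical in
/-- the sum over the pairs over one form -/
theorem prs_ten {p : Prm 10} (hc : 0 < p.c1) {C1 : ℝ} {X : ℕ}
    (r : (ℤ × ℤ × ℤ) × Vec 10 → (ℤ × ℤ × ℤ) × Vec 10 → Prop) :
    prs2 p X 10 (FT p C1 X) r = ∑ q ∈ AW C1 X, ∑ u ∈ GS p X, ∑ u' ∈ GS p X,
      if r (q, u) (q, u') then W p X q u * W p X q u' else 0 := by
  unfold prs2
  rw [← Finset.sum_product' (f := fun q u => ∑ u' ∈ GS p X,
    if r (q, u) (q, u') then W p X q u * W p X q u' else 0)]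
  have hsub : FT p C1 X ⊆ (AW C1 X) ×ˢ (GS p X) := by
    unfold FT
    exact Finset.filter_subset _ _
  rw [← Finset.sum_subset hsub]
  · apply Finset.sum_congr rfl
    intro σ hσ
    have g := (mem_FT hc).1 hσ
    unfold cls
    rw [nuM_ten, div_one, Finset.mul_sum]
    have hσ1 : σ.1 ∈ AW C1 X := g.aw
    have e2 : ∑ u' ∈ GS p X, (if r (σ.1, σ.2) (σ.1, u') then W p X σ.1 σ.2 * W p X σ.1 u' else 0) =
        ∑ u' ∈ (GS p X).filter (fun u' => r σ (σ.1, u') ∧ W p X σ.1 u' ≠ 0),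
          wT p X σ * W p X σ.1 u' := by
      rw [Finset.sum_filter]
      apply Finset.sum_congr rfl
      intro u' _
      by_cases h1 : r σ (σ.1, u')
      · have h1' : r (σ.1, σ.2) (σ.1, u') := h1
        rw [if_pos h1']
        by_cases h2 : W p X σ.1 u' = 0
        · rw [if_neg (show ¬ (r σ (σ.1, u') ∧ W p X σ.1 u' ≠ 0) from fun h => h.2 h2), h2]
          simp
        · rw [if_pos (show r σ (σ.1, u') ∧ W p X σ.1 u' ≠ 0 from ⟨h1, h2⟩)]
          rfl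
      · have h1' : ¬ r (σ.1, σ.2) (σ.1, u') := h1
        rw [if_neg h1', if_neg (show ¬ (r σ (σ.1, u') ∧ W p X σ.1 u' ≠ 0) from fun h => h1 h.1)]
    rw [e2]
    symm
    apply Finset.sum_bij (fun u' _ => (σ.1, u'))
    · intro u' hu'
      rw [Finset.mem_filter] at hu'
      have hm : (σ.1, u') ∈ FT p C1 X := by
        unfold FT
        rw [Finset.mem_filter, Finset.mem_product]
        exact ⟨⟨hσ1, hu'.1⟩, hu'.2.2⟩
      rw [Finset.mem_filter]
      refine ⟨hm, ?_, hu'.2.1⟩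
      rw [RB_ten ((mem_FT hc).1 hm), RB_ten g]
    · intro u1 _ u2 _ he
      exact congrArg Prod.snd he
    · intro σ' hσ'
      rw [Finset.mem_filter] at hσ'
      have g' := (mem_FT hc).1 hσ'.1
      have he := hσ'.2.1
      rw [RB_ten g', RB_ten g] at he
      have h1 : σ'.1 = σ.1 := by
        simp only [Prod.mk.injEq] at he
        exact Prod.ext he.2.2 (Prod.ext he.2.1 he.1)
      refine ⟨σ'.2, ?_, ?_⟩
      · rw [Finset.mem_filter]
        refine ⟨(mem_GS hc).2 g'.gp, ?_, ?_⟩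
        · rw [← h1]
          exact hσ'.2.2
        · rw [← h1]
          exact g'.w
      · rw [← h1]
    · intro u' _
      rfl
  · intro σ hσ hn
    have : W p X σ.1 σ.2 = 0 := by
      by_contra hne
      apply hn
      unfold FT
      rw [Finset.mem_filter]
      exact ⟨hσ, hne⟩
    rw [this]
    simp

/-- (NEG) for admissible parameters -/
theorem neg_PO {p : Prm 10} {δ τ C1 : ℝ} (h : PO p δ τ) (hC1 : 1 ≤ C1) : NEG p C1 := by
  classical
  obtain ⟨X₁, H1⟩ := small_M h hC1 10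
  obtain ⟨X₂, H2⟩ := large_P h hC1
  obtain ⟨X₃, H3⟩ := diff_M h hC1
  obtain ⟨X₄, hX₄, H4⟩ := lev h
  have hlim : ∀ᶠ X : ℝ in Filter.atTop, 3 ≤ Real.log X :=
    Real.tendsto_log_atTop.eventually_ge_atTop 3
  obtain ⟨x₅, H5⟩ := Filter.eventually_atTop.1 hlim
  refine ⟨max (max X₁ X₂) (max X₃ (max X₄ ⌈x₅⌉₊)), fun X hX => ?_⟩
  have y1 : X₁ ≤ X := ((le_max_left _ _).trans (le_max_left _ _)).trans hX
  have y2 : X₂ ≤ X := ((le_max_right _ _).trans (le_max_left _ _)).trans hX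
  have y3 : X₃ ≤ X := ((le_max_left _ _).trans (le_max_right _ _)).trans hX
  have y4 : X₄ ≤ X := (((le_max_left _ _).trans (le_max_right _ _)).trans
    (le_max_right _ _)).trans hX
  have y5 : x₅ ≤ (X : ℝ) := (Nat.le_ceil _).trans (by
    exact_mod_cast (((le_max_right _ _).trans (le_max_right _ _)).trans (le_max_right _ _)).trans hX)
  have hL := H5 X y5
  have hX0 : (0 : ℝ) ≤ X := Nat.cast_nonneg _
  have hw := wT_nonneg p X
  have b1 := H1 X y1 _ (Finset.Subset.refl _)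
  have b2 := H2 X y2
  have b3 := H3 X y3 _ (Finset.Subset.refl _)
  set r : (ℤ × ℤ × ℤ) × Vec 10 → (ℤ × ℤ × ℤ) × Vec 10 → Prop :=
    fun σ σ' => σ'.2 ≠ σ.2 ∧ ¬ C0 σ.2 σ'.2 with hr
  -- the sum as a sum over pairs
  have e1 : ∑ q ∈ AW C1 X, ∑ u ∈ GS p X, ∑ u' ∈ (GS p X).filter (fun u' => u' ≠ u ∧ ¬ C0 u u'),
      W p X q u * W p X q u' = prs2 p X 10 (FT p C1 X) r := by
    rw [prs_ten h.ok.c10]
    apply Finset.sum_congr rfl
    intro q _
    apply Finset.sum_congr rfl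
    intro u _
    rw [Finset.sum_filter]
    apply Finset.sum_congr rfl
    intro u' _
    by_cases hc : u' ≠ u ∧ ¬ C0 u u'
    · rw [if_pos hc, if_pos (show r (q, u) (q, u') from hc)]
    · rw [if_neg hc, if_neg (show ¬ r (q, u) (q, u') from hc)]
  rw [e1]
  have hsum : prs2 p X 10 (FT p C1 X) r ≤
      prs2 p X 10 (FT p C1 X)
        (fun σ σ' => 1 < GM2 10 σ σ' ∧ (GM2 10 σ σ' : ℝ) ≤ (X : ℝ) ^ (50 * p.ew / 8)) +
      prs2 p X 10 (FT p C1 X)
        (fun σ σ' => (X : ℝ) ^ (50 * p.ew / 8) < (GM2 10 σ σ' : ℝ) ∧ σ' ≠ σ) +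
      prs2 p X 10 (FT p C1 X)
        (fun σ σ' => GM2 10 σ σ' = 1 ∧ (1 < Nat.gcd (Dint σ.2) (Dall σ'.2) ∨
          1 < Nat.gcd (Dall σ.2) (Dint σ'.2))) := by
    unfold prs2
    rw [← Finset.sum_add_distrib, ← Finset.sum_add_distrib]
    apply Finset.sum_le_sum
    intro σ hσ
    rw [← mul_add, ← mul_add]
    apply mul_le_mul_of_nonneg_left _ (hw σ)
    apply cls_mono3 _ hw _ (nuM_pos p X 10)
    intro σ' hne
    have g0 := GM2_pos 10 σ σ'
    by_cases g1 : GM2 10 σ σ' = 1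
    · refine Or.inr (Or.inr ⟨g1, ?_⟩)
      have h1 := hne.2
      unfold C0 at h1
      rw [not_and_or] at h1
      have g := (mem_FT h.ok.c10).1 hσ
      have hD : 0 < Dall σ.2 ∧ 0 < Dint σ.2 := by
        rw [← DD_rt g.gp 10, ← bad_rt g.gp]
        have hne : ∀ i : Fin 11, 0 < PENK.dn (rt 10 σ.2) i := by
          intro i
          rw [dn_rt g.gp]
          split_ifs with hi
          · exact one_pos
          · have hv : (i + 10 : Fin 11).val + 1 ≤ 10 := by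
              have := (i + 10 : Fin 11).isLt
              have h2 : (i + 10 : Fin 11).val ≠ 10 := fun h => hi (Fin.ext h)
              omega
            exact Nat.pos_of_ne_zero (g.gp.dp _ (by omega) hv).1.ne_zero
        exact ⟨Finset.prod_pos fun i _ => hne i, Finset.prod_pos fun i _ => hne i⟩
      rcases h1 with h1 | h1
      · left
        have : Nat.gcd (Dint σ.2) (Dall σ'.2) ≠ 1 := h1
        have := Nat.gcd_pos_of_pos_left (Dall σ'.2) hD.2
        omega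
      · right
        have : Nat.gcd (Dall σ.2) (Dint σ'.2) ≠ 1 := h1
        have := Nat.gcd_pos_of_pos_left (Dint σ'.2) hD.1
        omega
    · by_cases g2 : (GM2 10 σ σ' : ℝ) ≤ (X : ℝ) ^ (50 * p.ew / 8)
      · exact Or.inl ⟨by omega, g2⟩
      · refine Or.inr (Or.inl ⟨not_le.1 g2, fun he => hne.1 (by rw [he])⟩)
  have hm : (-2 * mE 10 - 1 : ℝ) = -13 := by unfold mE; norm_num
  rw [hm]
  have hL0 : 0 < Real.log X := by linarith
  have c1 : 3 * Real.log X ^ (-110 : ℝ) ≤ Real.log X ^ (-13 : ℝ) := by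
    have h1 : Real.log X ^ (-110 : ℝ) ≤ Real.log X ^ (-14 : ℝ) :=
      Real.rpow_le_rpow_of_exponent_le (by linarith) (by norm_num)
    have h2 : Real.log X ^ (-13 : ℝ) = Real.log X ^ (-14 : ℝ) * Real.log X := by
      nth_rewrite 3 [← Real.rpow_one (Real.log X)]
      rw [← Real.rpow_add hL0]; norm_num
    rw [h2]
    have h3 : 0 < Real.log X ^ (-14 : ℝ) := Real.rpow_pos_of_pos hL0 _
    nlinarith
  calc _ ≤ _ := hsum
    _ ≤ X * (3 * Real.log X ^ (-110 : ℝ)) := by linarith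
    _ ≤ _ := mul_le_mul_of_nonneg_left c1 hX0

/-- the constant `τ₀` -/
theorem exists_PO : ∃ δ τ₀ : ℝ, 0 < τ₀ ∧ ∀ p : Prm 10, ∀ τ, τ ≤ τ₀ → p.Ok τ → PO p δ τ := by
  obtain ⟨δ, hδ, hδ1, hE⟩ := PENK.eqq
  refine ⟨δ, min (δ / 60000) (δ / (4 * (PENK.kU + 1))), lt_min (by positivity) (by positivity),
    fun p τ hτ hp => ⟨hp, hδ, hδ1, hτ.trans (min_le_left _ _), hτ.trans (min_le_right _ _), hE⟩⟩

/-- (NEG) -/
theorem neg_all : ∀ C1 : ℝ, 1 ≤ C1 → ∃ τ₀ : ℝ, 0 < τ₀ ∧ ∀ p : Prm 10, p.Ok τ₀ → NEG p C1 := by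
  intro C1 hC1
  obtain ⟨δ, τ₀, h0, H⟩ := exists_PO
  exact ⟨τ₀, h0, fun p hp => neg_PO (H p τ₀ le_rfl hp) hC1⟩

/-- (MAR), from (DG) and (DGN) -/
theorem mar_all (hG : ∀ C1 : ℝ, 1 ≤ C1 → ∃ τ₀ : ℝ, 0 < τ₀ ∧ ∀ p : Prm 10, p.Ok τ₀ → DG p C1)
    (hN : ∀ C1 : ℝ, 1 ≤ C1 → ∃ τ₀ : ℝ, 0 < τ₀ ∧ ∀ p : Prm 10, p.Ok τ₀ → DGN p C1) :
    ∀ C1 : ℝ, 1 ≤ C1 → ∃ τ₀ : ℝ, 0 < τ₀ ∧ ∀ p : Prm 10, p.Ok τ₀ → MAR p C1 := by
  intro C1 hC1
  obtain ⟨δ, τ₀, h0, H⟩ := exists_PO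
  obtain ⟨τ₁, h1, H1⟩ := hG C1 hC1
  obtain ⟨τ₂, h2, H2⟩ := hN C1 hC1
  refine ⟨min τ₀ (min τ₁ τ₂), by simp [h0, h1, h2], fun p hp => ?_⟩
  have hp0 : 0 < min τ₀ (min τ₁ τ₂) := by simp [h0, h1, h2]
  exact mar_PO (H p _ (min_le_left _ _) hp) hC1
    (H2 p (hp.mono hp0 (by norm_num) ((min_le_right _ _).trans (min_le_right _ _))))
    (H1 p (hp.mono hp0 (by norm_num) ((min_le_right _ _).trans (min_le_left _ _))))

end Pool.Agent.PENM
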