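import Pool.Agent.Lib_helper18.PENM.Defs
import Pool.Agent.Lib_helper18.PENKF.DefsQ

/-! PENK block MA3: the weights are balanced (helper44) -/

set_option autoImplicit false

namespace Pool.Agent.PENM

open Finset Pool.Agent.PENT Pool.Agent.PATH.NC

/-- the table of the weights of the edges -/
def ma3A : Fin 11 → ℚ :=
  ![3 / 8, 1 / 4, 1 / 4, 1 / 4, 1 / 4, 1 / 4, 1 / 4, 1 / 4, 1 / 4, 3 / 8, 0]

/-- the table of the weights of the vertices -/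
def ma3B : Fin 11 → ℚ :=
  ![5 / 8, 1 / 8, 1 / 4, 1 / 4, 1 / 4, 1 / 4, 1 / 4, 1 / 4, 1 / 4, 1 / 8, 5 / 8]

/-- the table of the weights for small primes -/
def ma3O : Fin 11 → ℚ := ![1, 0, 1, 0, 1, 0, 1, 0, 1, 0, 1]

theorem ma3_al (j i : Fin 11) : (WM j).al i = ((ma3A (i + j) : ℚ) : ℝ) := by
  unfold WM
  simp only
  generalize i + j = t
  fin_cases t <;> simp [alE, ma3A]

theorem ma3_be (j i : Fin 11) : (WM j).be i = ((ma3B (i + j) : ℚ) : ℝ) := by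
  unfold WM
  simp only
  generalize i + j = t
  fin_cases t <;> simp [beV, ma3B]

theorem ma3_bo (j i : Fin 11) : (WM j).bo i = ((ma3O (i + j) : ℚ) : ℝ) := by
  unfold WM
  simp only
  generalize i + j = t
  fin_cases t <;> simp [boV, ma3O] <;> decide

theorem ma3_q : ∀ j : Fin 11,
    2 * ∑ i ∈ PENK.inr 11 \ {10 - j}, (1 - 2 * ma3A (i + j)) +
        4 * ∑ k ∈ PENK.ivr 11, (1 - ma3B (k + j)) +
        2 * (1 - ma3B (0 + j) ^ 2 / (ma3B (0 + j) + ma3A (-1 + j))) +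
        2 * (1 - ma3B (1 + j) ^ 2 / (ma3B (1 + j) + ma3A (1 + j))) -
      (4 * (ma3A (1 + j) * ma3B (1 + j) / (ma3B (1 + j) + ma3A (1 + j))) +
        2 * (ma3A (1 + j) ^ 2 / (ma3B (1 + j) + ma3A (1 + j)))) -
      (4 * (ma3A (-1 + j) * ma3B (0 + j) / (ma3B (0 + j) + ma3A (-1 + j))) +
        2 * (ma3A (-1 + j) ^ 2 / (ma3B (0 + j) + ma3A (-1 + j)))) =
    2 * ((PENK.inr 11 \ {10 - j}).card : ℚ) + 4 * ∑ k ∈ PENK.ivr 11, (1 - ma3O (k + j)) +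
      2 * (1 - ma3O (0 + j)) + 2 * (1 - ma3O (1 + j)) := by
  decide +kernel

theorem ma3_bal (j : Fin 11) : PENK.eB1 (mM j) (WM j) - PENK.eS1 (WM j) - PENK.eS0 (WM j) =
    PENK.eBP (mM j) (WM j) := by
  unfold PENK.eB1 PENK.eS1 PENK.eS0 PENK.eBP PENK.Wts.s0 PENK.Wts.s1 mM
  simp only [ma3_al, ma3_be, ma3_bo]
  exact_mod_cast ma3_q j

theorem ma3_A01 : ∀ t : Fin 11, 0 ≤ ma3A t ∧ ma3A t ≤ 1 / 2 := by decide +kernel

theorem ma3_B01 : ∀ t : Fin 11, 0 < ma3B t ∧ ma3B t ≤ 1 := by decide +kernel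

theorem ma3_O01 : ∀ t : Fin 11, 0 ≤ ma3O t ∧ ma3O t ≤ 1 := by decide +kernel

theorem WM_bal_pr (j : Fin 11) : PENK.Bal (mM j) (WM j) := by
  refine ⟨⟨?_, ?_, ?_, ?_, ?_, ?_⟩, ?_, ma3_bal j⟩
  · intro i
    rw [ma3_al]
    exact_mod_cast (ma3_A01 _).1
  · intro i
    rw [ma3_al]
    have := (ma3_A01 (i + j)).2
    have h : ((ma3A (i + j) : ℚ) : ℝ) ≤ ((1 / 2 : ℚ) : ℝ) := by exact_mod_cast this
    refine h.trans (le_of_eq ?_)
    norm_num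
  · intro i
    rw [ma3_be]
    exact_mod_cast (ma3_B01 _).1
  · intro i
    rw [ma3_be]
    exact_mod_cast (ma3_B01 _).2
  · intro i
    rw [ma3_bo]
    exact_mod_cast (ma3_O01 _).1
  · intro i
    rw [ma3_bo]
    exact_mod_cast (ma3_O01 _).2
  · unfold mM WM
    simp

theorem ma3_e : ∀ j : Fin 11, ((PENK.ncell (10 - j) : ℕ) : ℚ) -
    (2 * ((PENK.inr 11 \ {10 - j}).card : ℚ)) / 2 -
    (2 * ((PENK.inr 11 \ {10 - j}).card : ℚ) + 4 * ∑ k ∈ PENK.ivr 11, (1 - ma3O (k + j)) +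
      2 * (1 - ma3O (0 + j)) + 2 * (1 - ma3O (1 + j))) / 2 = -12 := by
  decide +kernel

theorem WM_exp_pr (j : Fin 11) : (PENK.ncell (mM j) : ℝ) - PENK.eB3 (mM j) / 2 -
    PENK.eBP (mM j) (WM j) / 2 = -12 := by
  unfold PENK.eB3 PENK.eBP mM
  simp only [ma3_bo]
  have h := congrArg (fun z : ℚ => (z : ℝ)) (ma3_e j)
  push_cast at h
  exact h

end Pool.Agent.PENM

namespace Pool.Agent.PENM

open Finset Pool.Agent.PENT Pool.Agent.PATH.NC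

theorem WM_bal : type_of% @WM_bal_pr := @WM_bal_pr

theorem WM_exp : type_of% @WM_exp_pr := @WM_exp_pr

end Pool.Agent.PENM
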