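import Pool.Agent.Lib_helper18.PENM.Defs
import Pool.Agent.Lib_helper88.NCF.NA1
import Pool.Agent.Lib_helper18.PENKF.DefsQ

/-! Block `MB1` (PENK part 6), helper42. -/

set_option autoImplicit false

namespace Pool.Agent.PENM

open Finset Pool.Agent.PENT Pool.Agent.PATH.NC

theorem mem_FT_pr {p : Prm 10} (hc : 0 < p.c1) {C1 : ℝ} {X : ℕ} {s : (ℤ × ℤ × ℤ) × Vec 10} :
    s ∈ FT p C1 X ↔ TT p C1 X s := by
  unfold FT
  rw [Finset.mem_filter, Finset.mem_product, mem_GS hc]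
  constructor
  · rintro ⟨⟨h1, h2⟩, h3⟩
    exact ⟨h1, h2, h3⟩
  · rintro ⟨h1, h2, h3⟩
    exact ⟨⟨h1, h2⟩, h3⟩

theorem TT_gd_pr {p : Prm 10} {C1 : ℝ} {X : ℕ} {s : (ℤ × ℤ × ℤ) × Vec 10} (h : TT p C1 X s) :
    GD s.1 s.2 := by
  by_contra hG
  apply h.w
  unfold W
  rw [if_neg hG]

theorem TT_form_pr {p : Prm 10} {C1 : ℝ} (hC1 : 1 ≤ C1) {X : ℕ} (hX : 1 ≤ X)
    {s : (ℤ × ℤ × ℤ) × Vec 10} (h : TT p C1 X s) :
    s.1.1 * s.1.2.2 - s.1.2.1 ^ 2 = 1 ∧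
    ((X : ℝ) < (s.1.1 : ℝ) ∧ (s.1.1 : ℝ) ≤ 2 * X) ∧
    ((X : ℝ) / C1 ≤ (s.1.2.1 : ℝ) ∧ (s.1.2.1 : ℝ) ≤ 2 * C1 * X) ∧
    ((X : ℝ) / (2 * C1 ^ 2) ≤ (s.1.2.2 : ℝ) ∧ (s.1.2.2 : ℝ) ≤ 5 * C1 ^ 2 * X) := by
  have hA := h.aw
  unfold AW at hA
  rw [Finset.mem_filter, Finset.mem_product, Finset.mem_product, Finset.mem_Ioc, Finset.mem_Icc,
    Finset.mem_Icc] at hA
  obtain ⟨⟨⟨a1, a2⟩, ⟨b1, b2⟩, ⟨c1, c2⟩⟩, hdet, hb⟩ := hA
  have hC0 : 0 < C1 := by linarith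
  have hX0 : (1 : ℝ) ≤ (X : ℝ) := by exact_mod_cast hX
  have ha1 : (X : ℝ) < (s.1.1 : ℝ) := by exact_mod_cast a1
  have ha2 : (s.1.1 : ℝ) ≤ 2 * X := by exact_mod_cast a2
  have hb2 : (s.1.2.1 : ℝ) ≤ 2 * C1 * X :=
    le_trans (by exact_mod_cast b2) (Int.floor_le (2 * C1 * (X : ℝ)))
  have hc2 : (s.1.2.2 : ℝ) ≤ 5 * C1 ^ 2 * X :=
    le_trans (by exact_mod_cast c2) (Int.floor_le (5 * C1 ^ 2 * (X : ℝ)))
  have hb1 : (X : ℝ) / C1 ≤ (s.1.2.1 : ℝ) := by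
    rw [div_le_iff₀ hC0]
    linarith
  have hdetR : (s.1.1 : ℝ) * (s.1.2.2 : ℝ) - (s.1.2.1 : ℝ) ^ 2 = 1 := by exact_mod_cast hdet
  have hc0 : (0 : ℝ) < (s.1.2.2 : ℝ) := by exact_mod_cast (lt_of_lt_of_le zero_lt_one c1)
  refine ⟨hdet, ⟨ha1, ha2⟩, ⟨hb1, hb2⟩, ?_, hc2⟩
  rw [div_le_iff₀ (by positivity)]
  have h1 : (X : ℝ) ^ 2 ≤ (C1 * (s.1.2.1 : ℝ)) ^ 2 := by
    apply pow_le_pow_left₀ (by linarith)
    exact hb
  have h2 : (s.1.2.1 : ℝ) ^ 2 ≤ 2 * X * (s.1.2.2 : ℝ) := by nlinarith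
  have h3 : (X : ℝ) ^ 2 ≤ C1 ^ 2 * (2 * X * (s.1.2.2 : ℝ)) := by
    calc (X : ℝ) ^ 2 ≤ (C1 * (s.1.2.1 : ℝ)) ^ 2 := h1
      _ = C1 ^ 2 * (s.1.2.1 : ℝ) ^ 2 := by ring
      _ ≤ C1 ^ 2 * (2 * X * (s.1.2.2 : ℝ)) := mul_le_mul_of_nonneg_left h2 (by positivity)
  have h4 : (X : ℝ) * X ≤ X * ((s.1.2.2 : ℝ) * (2 * C1 ^ 2)) := by
    calc (X : ℝ) * X = (X : ℝ) ^ 2 := by ring
      _ ≤ C1 ^ 2 * (2 * X * (s.1.2.2 : ℝ)) := h3
      _ = X * ((s.1.2.2 : ℝ) * (2 * C1 ^ 2)) := by ring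
  exact le_of_mul_le_mul_left h4 (by linarith)

theorem mb1_dl {p : Prm 10} {X : ℕ} {u : Vec 10} (h : GP p X u) (j i : Fin 11) :
    PENK.dl (rt j u) i = dt (u (i + j)) (u (i + j + 1)) := by
  unfold PENK.dl rt
  rw [add_right_comm i 1 j]

theorem dl_open_pr {p : Prm 10} {X : ℕ} {u : Vec 10} (h : GP p X u) (j i : Fin 11)
    (hi : i + j = 10) : PENK.dl (rt j u) i = -1 := by
  rw [mb1_dl h, hi]
  have e1 : (10 : Fin 11) = Fin.last 10 := rfl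
  have e2 : (10 : Fin 11) + 1 = 0 := rfl
  rw [e2, h.first, e1, h.last]
  rfl

theorem dn_rt_pr {p : Prm 10} {X : ℕ} {u : Vec 10} (h : GP p X u) (j i : Fin 11) :
    PENK.dn (rt j u) i = if i + j = 10 then 1 else dE u ((i + j).val + 1) := by
  unfold PENK.dn
  by_cases hi : i + j = 10
  · rw [if_pos hi, dl_open_pr h j i hi]
    rfl
  · rw [if_neg hi, mb1_dl h]
    generalize hs : i + j = t at hi ⊢
    have ht : t.val < 10 := by
      have h1 := t.isLt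
      have h2 : t.val ≠ 10 := fun h3 => hi (Fin.ext h3)
      omega
    unfold dE
    rw [dif_pos ⟨by omega, by omega⟩]
    have e1 : (⟨t.val + 1 - 1, by omega⟩ : Fin 11) = t := by
      apply Fin.ext
      show t.val + 1 - 1 = t.val
      omega
    have e2 : (⟨t.val + 1, by omega⟩ : Fin 11) = t + 1 := by
      apply Fin.ext
      show t.val + 1 = (t + 1).val
      rw [Fin.val_add_one_of_lt]
      exact ht
    rw [e1, e2]

theorem DD_rt_pr {p : Prm 10} {X : ℕ} {u : Vec 10} (h : GP p X u) (j : Fin 11) :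
    PENK.DD (rt j u) = Dall u := by
  unfold PENK.DD
  have e1 : ∏ i : Fin 11, PENK.dn (rt j u) i =
      ∏ t : Fin 11, (if t = 10 then 1 else dE u (t.val + 1)) := by
    refine Fintype.prod_equiv (Equiv.addRight j) _ _ ?_
    intro i
    rw [dn_rt_pr h]
    rfl
  rw [e1, Fin.prod_univ_castSucc]
  have e2 : (if (Fin.last 10) = (10 : Fin 11) then 1 else dE u ((Fin.last 10).val + 1)) = 1 :=
    if_pos rfl
  rw [e2, mul_one]
  have e3 : ∀ i : Fin 10, (if (i.castSucc : Fin 11) = 10 then 1 else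
      dE u ((i.castSucc : Fin 11).val + 1)) = dE u (i.val + 1) := by
    intro i
    rw [if_neg]
    · rfl
    · intro h1
      have h2 : i.val = 10 := congrArg Fin.val h1
      have h5 := i.isLt
      omega
  rw [Finset.prod_congr rfl (fun i _ => e3 i)]
  rw [Fin.prod_univ_eq_prod_range (fun i => dE u (i + 1)) 10]
  unfold Dall
  rw [Finset.range_eq_Ico, Finset.prod_Ico_add' (fun i => dE u i) 0 10 1]
  rfl

theorem bad_rt_pr {p : Prm 10} {X : ℕ} {u : Vec 10} (h : GP p X u) :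
    PENK.bad (rt 10 u) = Dint u := by
  unfold PENK.bad Dint
  have hs : PENK.inr 11 = insert (0 : Fin 11) (univ.filter (fun i : Fin 11 => 2 ≤ i.val ∧
      i.val ≤ 9)) := by
    unfold PENK.inr
    decide
  rw [hs, Finset.prod_insert (by decide)]
  have e0 : PENK.dn (rt 10 u) 0 = 1 := by
    rw [dn_rt_pr h, if_pos (by decide)]
  rw [e0, one_mul]
  have hd : ∀ i : Fin 11, (2 ≤ i.val ∧ i.val ≤ 9) → (i + 10 ≠ 10 ∧ (i + 10).val + 1 = i.val) := by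
    decide
  refine Finset.prod_nbij (fun i => i.val) ?_ ?_ ?_ ?_
  · intro i hi
    exact Finset.mem_Icc.2 (Finset.mem_filter.1 hi).2
  · intro a _ b _ hab
    exact Fin.ext hab
  · intro n hn
    rw [Finset.mem_coe, Finset.mem_Icc] at hn
    refine ⟨⟨n, by omega⟩, ?_, rfl⟩
    rw [Finset.mem_coe, Finset.mem_filter]
    exact ⟨Finset.mem_univ _, hn.1, hn.2⟩
  · intro i hi
    have h1 := hd i (Finset.mem_filter.1 hi).2
    rw [dn_rt_pr h, if_neg h1.1, h1.2]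

end Pool.Agent.PENM

namespace Pool.Agent.PENM

open Finset Pool.Agent.PENT Pool.Agent.PATH.NC

theorem mem_FT : type_of% @mem_FT_pr := @mem_FT_pr

theorem TT.gd : type_of% @TT_gd_pr := @TT_gd_pr

theorem TT.form : type_of% @TT_form_pr := @TT_form_pr

theorem dn_rt : type_of% @dn_rt_pr := @dn_rt_pr

theorem dl_open : type_of% @dl_open_pr := @dl_open_pr

theorem DD_rt : type_of% @DD_rt_pr := @DD_rt_pr

theorem bad_rt : type_of% @bad_rt_pr := @bad_rt_pr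

end Pool.Agent.PENM
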