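import Pool.Agent.Lib_helper18.PENM.Defs
import Pool.Agent.Lib_helper18.PENKF.DefsQ
import Pool.Agent.Lib_helper18.PENMF.MA1
import Pool.Agent.Lib_helper18.PENMF.MB1

/-! Block MB2 (helper33) -/

set_option autoImplicit false

namespace Pool.Agent.PENM

open Finset Pool.Agent.PENT Pool.Agent.PATH.NC

theorem mb2_neg (a b : ℤ × ℤ) : dt a b = -dt b a := by
  unfold dt
  ring

/-- coordinates -/
theorem mb2_coord {p : Prm 10} {X : ℕ} {u : Vec 10} (h : GP p X u) (a : Fin 11) :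
    0 ≤ (u a).1 ∧ 0 ≤ (u a).2 ∧ 1 ≤ nm (u a) := by
  by_cases h0 : a = 0
  · rw [h0, h.first]
    refine ⟨by norm_num, by norm_num, by unfold nm; norm_num⟩
  by_cases h1 : a = 10
  · have e : u a = (0, 1) := by
      rw [h1]
      exact h.last
    rw [e]
    refine ⟨by norm_num, by norm_num, by unfold nm; norm_num⟩
  · have a0 : a.val ≠ 0 := fun e => h0 (Fin.ext e)
    have a1 : a.val ≠ 10 := fun e => h1 (Fin.ext e)
    have a2 := a.isLt
    obtain ⟨k1, k2⟩ := h.pos a (by omega) (by omega)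
    refine ⟨k1.le, k2.le, ?_⟩
    unfold nm
    omega

theorem mb2_nr {p : Prm 10} {X : ℕ} {u : Vec 10} (h : GP p X u) (a : Fin 11) :
    (PENK.nr (u a) : ℝ) = (nm (u a) : ℝ) := by
  obtain ⟨h1, h2, -⟩ := mb2_coord h a
  have e : ((PENK.nr (u a) : ℕ) : ℤ) = nm (u a) := by
    unfold PENK.nr nm
    push_cast
    rw [abs_of_nonneg h1, abs_of_nonneg h2]
  exact_mod_cast congrArg (Int.cast : ℤ → ℝ) e

theorem mb2_one {p : Prm 10} {X : ℕ} {u : Vec 10} (h : GP p X u) (a : Fin 11) :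
    (1 : ℝ) ≤ (nm (u a) : ℝ) := by
  exact_mod_cast (mb2_coord h a).2.2

theorem mb2_dt {p : Prm 10} (hc : 0 < p.c1) {X : ℕ} {u : Vec 10} (h : GP p X u) {a b : Fin 11}
    (hab : a < b) : p.c1 * ((nm (u a) : ℝ) * (nm (u b) : ℝ)) ≤ (dt (u a) (u b) : ℝ) ∧
      0 < dt (u a) (u b) := by
  have h1 := h.sep a b hab
  refine ⟨h1, ?_⟩
  have h2 := mb2_one h a
  have h3 := mb2_one h b
  have h4 : (0 : ℝ) < (dt (u a) (u b) : ℝ) := by
    refine lt_of_lt_of_le ?_ h1
    positivity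
  exact_mod_cast h4

/-- the end determinants -/
theorem mb2_d1 (u : Vec 10) (h0 : u 0 = (1, 0)) (h1 : 0 ≤ (u 1).2) : (dE u 1 : ℝ) = ((u 1).2 : ℝ) := by
  have e : dE u 1 = (dt (u 0) (u 1)).natAbs := by
    unfold dE
    rw [dif_pos ⟨by norm_num, by norm_num⟩]
    rfl
  have e2 : ((dE u 1 : ℕ) : ℤ) = (u 1).2 := by
    rw [e, h0]
    unfold dt
    simp only [one_mul, zero_mul, sub_zero]
    exact Int.natAbs_of_nonneg h1
  exact_mod_cast congrArg (Int.cast : ℤ → ℝ) e2

theorem mb2_d10 (u : Vec 10) (h0 : u 10 = (0, 1)) (h1 : 0 ≤ (u 9).1) :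
    (dE u 10 : ℝ) = ((u 9).1 : ℝ) := by
  have e : dE u 10 = (dt (u 9) (u 10)).natAbs := by
    unfold dE
    rw [dif_pos ⟨by norm_num, by norm_num⟩]
    rfl
  have e2 : ((dE u 10 : ℕ) : ℤ) = (u 9).1 := by
    rw [e, h0]
    unfold dt
    simp only [mul_one, mul_zero, sub_zero]
    exact Int.natAbs_of_nonneg h1
  exact_mod_cast congrArg (Int.cast : ℤ → ℝ) e2

/-- the odd vertices are large -/
theorem mb2_odd {p : Prm 10} {τ : ℝ} (hp : p.Ok τ) (hτ : τ ≤ 1 / 1000) {X : ℕ} (hX : 2 ≤ X)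
    {u : Vec 10} (h : GP p X u) (a : Fin 11) (ha : ¬ Even a.val) :
    (X : ℝ) ^ p.em ≤ (nm (u a) : ℝ) := by
  obtain ⟨⟨-, e1, e2, e3, -⟩, ⟨n1, n2⟩, -, -, n5, -⟩ := prm_nums hp hτ
  have hX1 : (1 : ℝ) ≤ X := by
    have : 1 ≤ X := by omega
    exact_mod_cast this
  have a2 := a.isLt
  by_cases h1 : a = 1
  · obtain ⟨k1, k2, -⟩ := mb2_coord h 1
    have h2 := h.e1.lo
    rw [mb2_d1 u h.first k2] at h2
    refine h2.trans ?_
    rw [h1]
    have : (u 1).2 ≤ nm (u 1) := by unfold nm; omega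
    exact_mod_cast this
  by_cases h9 : a = 9
  · obtain ⟨k1, k2, -⟩ := mb2_coord h 9
    have h2 := h.e2.lo
    rw [mb2_d10 u h.last k1] at h2
    refine h2.trans ?_
    rw [h9]
    have : (u 9).1 ≤ nm (u 9) := by unfold nm; omega
    exact_mod_cast this
  · have a1 : a.val ≠ 1 := fun e => h1 (Fin.ext e)
    have a9 : a.val ≠ 9 := fun e => h9 (Fin.ext e)
    have a0 : a.val % 2 = 1 := by
      rcases Nat.even_or_odd a.val with h2 | h2
      · exact absurd h2 ha
      · exact Nat.odd_iff.1 h2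
    have h2 := h.low a (by omega) (by omega)
    rw [n5 a (by omega) (by omega) ha] at h2
    exact (Real.rpow_le_rpow_of_exponent_le hX1 (by linarith)).trans h2

/-- the even inner vertices -/
theorem mb2_even {p : Prm 10} {τ : ℝ} (hp : p.Ok τ) (hτ : τ ≤ 1 / 1000) {X : ℕ} (hX : 2 ≤ X)
    {u : Vec 10} (h : GP p X u) (a : Fin 11) (ha : Even a.val) (h0 : a ≠ 0) (h1 : a ≠ 10) :
    (X : ℝ) ^ (200 * p.ew) ≤ (nm (u a) : ℝ) ∧
      (X : ℝ) ^ (200 * p.ew) * (nm (u a) : ℝ) ≤ (X : ℝ) ^ p.em := by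
  obtain ⟨⟨e0, e1, e2, e3, -⟩, ⟨n1, n2⟩, n3, n4, n5, -⟩ := prm_nums hp hτ
  have hX1 : (1 : ℝ) ≤ X := by
    have : 1 ≤ X := by omega
    exact_mod_cast this
  have hX0 : (0 : ℝ) < X := by linarith
  have a2 := a.isLt
  have a0 : a.val ≠ 0 := fun e => h0 (Fin.ext e)
  have a1 : a.val ≠ 10 := fun e => h1 (Fin.ext e)
  have a3 : a.val % 2 = 0 := Nat.even_iff.1 ha
  obtain ⟨m1, m2⟩ := n3 a (by omega) (by omega)
  have m3 := n4 a (by omega) (by omega) ha
  constructor
  · refine (Real.rpow_le_rpow_of_exponent_le hX1 ?_).trans (h.low a (by omega) (by omega))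
    linarith
  · have h2 := h.upp a (by omega) (by omega)
    calc (X : ℝ) ^ (200 * p.ew) * (nm (u a) : ℝ) ≤
        (X : ℝ) ^ (200 * p.ew) * (X : ℝ) ^ (p.e a + p.ew) :=
          mul_le_mul_of_nonneg_left h2 (by positivity)
      _ = (X : ℝ) ^ (200 * p.ew + (p.e a + p.ew)) := (Real.rpow_add hX0 _ _).symm
      _ ≤ (X : ℝ) ^ p.em := Real.rpow_le_rpow_of_exponent_le hX1 (by linarith)

/-- the inner vertices, lower bound -/
theorem mb2_low {p : Prm 10} {τ : ℝ} (hp : p.Ok τ) (hτ : τ ≤ 1 / 1000) {X : ℕ} (hX : 2 ≤ X)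
    {u : Vec 10} (h : GP p X u) (a : Fin 11) (h0 : a ≠ 0) (h1 : a ≠ 10) :
    (X : ℝ) ^ (200 * p.ew) ≤ (nm (u a) : ℝ) := by
  by_cases ha : Even a.val
  · exact (mb2_even hp hτ hX h a ha h0 h1).1
  · obtain ⟨⟨e0, e1, e2, e3, -⟩, ⟨n1, n2⟩, n3, n4, n5, -⟩ := prm_nums hp hτ
    have hX1 : (1 : ℝ) ≤ X := by
      have : 1 ≤ X := by omega
      exact_mod_cast this
    refine le_trans ?_ (mb2_odd hp hτ hX h a ha)
    refine Real.rpow_le_rpow_of_exponent_le hX1 ?_
    obtain ⟨m1, m2⟩ := n3 2 (by decide) (by decide)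
    have m3 := n4 2 (by decide) (by decide) (by decide)
    linarith

/-- adjacent inner vertices -/
theorem mb2_adj {p : Prm 10} {τ : ℝ} (hp : p.Ok τ) (hτ : τ ≤ 1 / 1000) {X : ℕ} (hX : 2 ≤ X)
    {u : Vec 10} (h : GP p X u) (a b : Fin 11) (hab : b = a + 1) (h0 : a ≠ 0) (h1 : a ≠ 10)
    (h2 : b ≠ 0) (h3 : b ≠ 10) :
    (X : ℝ) ^ (200 * p.ew) * (nm (u a) : ℝ) ≤ (nm (u b) : ℝ) ∨
      (X : ℝ) ^ (200 * p.ew) * (nm (u b) : ℝ) ≤ (nm (u a) : ℝ) := by
  have key : (Even a.val ∧ ¬ Even b.val) ∨ (Even b.val ∧ ¬ Even a.val) := by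
    subst hab
    revert h0 h1 h2 h3
    clear h
    revert a
    decide
  rcases key with ⟨k1, k2⟩ | ⟨k1, k2⟩
  · left
    exact (mb2_even hp hτ hX h a k1 h0 h1).2.trans (mb2_odd hp hτ hX h b k2)
  · right
    exact (mb2_even hp hτ hX h b k1 h2 h3).2.trans (mb2_odd hp hτ hX h a k2)

/-- upper bound -/
theorem mb2_upp {p : Prm 10} {τ : ℝ} (hp : p.Ok τ) (hτ : τ ≤ 1 / 1000) {X : ℕ} (hX : 2 ≤ X)
    (hX2 : 1 / p.c1 ≤ (X : ℝ) ^ p.ep) {u : Vec 10} (h : GP p X u) (a : Fin 11) :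
    (nm (u a) : ℝ) ≤ (X : ℝ) ^ (2 * p.ep) := by
  obtain ⟨⟨e0, e1, e2, e3, e4, e5, e6⟩, ⟨n1, n2⟩, n3, n4, n5, -⟩ := prm_nums hp hτ
  have hX1 : (1 : ℝ) ≤ X := by
    have : 1 ≤ X := by omega
    exact_mod_cast this
  have hX0 : (0 : ℝ) < X := by linarith
  have a2 := a.isLt
  have big : ∀ t : ℝ, 0 ≤ t → p.c1 * t ≤ (X : ℝ) ^ p.ep → t ≤ (X : ℝ) ^ (2 * p.ep) := by
    intro t ht0 ht
    have e : (X : ℝ) ^ (2 * p.ep) = (X : ℝ) ^ p.ep * (X : ℝ) ^ p.ep := by
      rw [← Real.rpow_add hX0]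
      congr 1
      ring
    rw [e]
    calc t = 1 / p.c1 * (p.c1 * t) := by field_simp
      _ ≤ (X : ℝ) ^ p.ep * (X : ℝ) ^ p.ep :=
        mul_le_mul hX2 ht (mul_nonneg e5.le ht0) (by positivity)
  have one : (1 : ℝ) ≤ (X : ℝ) ^ (2 * p.ep) := Real.one_le_rpow hX1 (by linarith)
  have nm0 : (nm (u 0) : ℝ) = 1 := by
    rw [h.first]
    unfold nm
    norm_num
  have nm10 : (nm (u 10) : ℝ) = 1 := by
    have e : u 10 = (0, 1) := h.last
    rw [e]
    unfold nm
    norm_num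
  by_cases h0 : a = 0
  · rw [h0, nm0]
    exact one
  by_cases h10 : a = 10
  · rw [h10, nm10]
    exact one
  by_cases h1 : a = 1
  · rw [h1]
    refine big _ (by linarith [mb2_one h 1]) ?_
    have k1 := (mb2_dt e5 h (a := 0) (b := 1) (by decide)).1
    rw [nm0, one_mul] at k1
    obtain ⟨-, k2, -⟩ := mb2_coord h 1
    have k3 : (dt (u 0) (u 1) : ℝ) = (dE u 1 : ℝ) := by
      rw [mb2_d1 u h.first k2, h.first]
      unfold dt
      simp
    rw [k3] at k1
    exact k1.trans h.e1.hi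
  by_cases h9 : a = 9
  · rw [h9]
    refine big _ (by linarith [mb2_one h 9]) ?_
    have k1 := (mb2_dt e5 h (a := 9) (b := 10) (by decide)).1
    rw [nm10, mul_one] at k1
    obtain ⟨k2, -, -⟩ := mb2_coord h 9
    have e : u 10 = (0, 1) := h.last
    have k3 : (dt (u 9) (u 10) : ℝ) = (dE u 10 : ℝ) := by
      rw [mb2_d10 u e k2, e]
      unfold dt
      simp
    rw [k3] at k1
    exact k1.trans h.e2.hi
  · have a0 : a.val ≠ 0 := fun e => h0 (Fin.ext e)
    have a1 : a.val ≠ 1 := fun e => h1 (Fin.ext e)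
    have a9 : a.val ≠ 9 := fun e => h9 (Fin.ext e)
    have a10 : a.val ≠ 10 := fun e => h10 (Fin.ext e)
    refine (h.upp a (by omega) (by omega)).trans (Real.rpow_le_rpow_of_exponent_le hX1 ?_)
    obtain ⟨m1, m2⟩ := n3 a (by omega) (by omega)
    linarith

theorem mb2_fx {m i : Fin 11} : PENK.fx m i = none → i ≠ m ∧ i ≠ m + 1 := by
  intro h
  unfold PENK.fx at h
  constructor
  · intro e
    rw [if_pos e] at h
    simp at h
  · intro e
    by_cases e2 : i = m
    · rw [if_pos e2] at h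
      simp at h
    · rw [if_neg e2, if_pos e] at h
      simp at h

theorem mb2_inner {j i : Fin 11} (h : PENK.fx (mM j) i = none) : i + j ≠ 0 ∧ i + j ≠ 10 := by
  obtain ⟨h1, h2⟩ := mb2_fx h
  unfold mM at h1 h2
  revert h1 h2
  clear h
  revert i j
  decide

theorem mb2_zero (j : Fin 11) : 10 - j + 1 + j = 0 := by
  revert j
  decide

theorem isPath_of_pr {p : Prm 10} {τ δ C1 : ℝ} (hp : p.Ok τ) (hτ : τ ≤ 1 / 1000) : ∃ X₀ : ℕ, 2 ≤ X₀ ∧
    ∀ X ≥ X₀, ∀ (j : Fin 11) (u : Vec 10), GP p X u →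
      PENK.IsPath (qM p δ C1 j) (50 * p.ew) (mM j) X ⌊PP X⌋₊ (rt j u) ∧ PENK.One4 (rt j u) := by
  obtain ⟨⟨e0, e1, e2, e3, e4, e5, e6⟩, -, -, -, -, -⟩ := prm_nums hp hτ
  have t1 : ∀ᶠ X : ℕ in Filter.atTop, 1 / p.c1 ≤ (X : ℝ) ^ p.ep :=
    ((tendsto_rpow_atTop e3).comp tendsto_natCast_atTop_atTop).eventually_ge_atTop _
  obtain ⟨X1, hX1⟩ := Filter.eventually_atTop.1 t1
  refine ⟨max 2 X1, le_max_left _ _, fun X hX j u h => ?_⟩
  have hX2 : 2 ≤ X := (le_max_left _ _).trans hX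
  have hX3 := hX1 X ((le_max_right _ _).trans hX)
  have hc := e5
  have k4 : (4 * (50 * p.ew)) = 200 * p.ew := by ring
  have nr1 : ∀ i : Fin 11, (PENK.nr (rt j u i) : ℝ) = (nm (u (i + j)) : ℝ) := fun i =>
    mb2_nr h (i + j)
  have shift : ∀ i l : Fin 11, i ≠ l → i + j ≠ l + j := fun i l hil he => hil (add_right_cancel he)
  -- the signs
  have sg : ∀ i l : Fin 11, i ≠ l →
      0 < (if (i + j).val < (l + j).val then (1 : ℤ) else -1) * dt (rt j u i) (rt j u l) := by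
    intro i l hil
    by_cases hlt : (i + j).val < (l + j).val
    · rw [if_pos hlt, one_mul]
      exact (mb2_dt hc h (a := i + j) (b := l + j) hlt).2
    · rw [if_neg hlt]
      have hne : (i + j).val ≠ (l + j).val := fun e => shift i l hil (Fin.ext e)
      have hlt2 : l + j < i + j := Fin.lt_def.2 (by omega)
      have k := (mb2_dt hc h hlt2).2
      have e : dt (rt j u i) (rt j u l) = -dt (u (l + j)) (u (i + j)) := mb2_neg _ _
      rw [e]
      linarith
  have dp : ∀ i : Fin 11, i + j ≠ 10 → 1 ≤ (i + j).val + 1 ∧ (i + j).val + 1 ≤ 10 := by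
    intro i hi
    have h1 := (i + j).isLt
    have h2 : (i + j).val ≠ 10 := fun e => hi (Fin.ext e)
    omega
  have poly : PENK.IsPoly (qM p δ C1 j) X ⌊PP X⌋₊ (rt j u) := by
    refine ⟨?_, ?_, sg, ?_, ?_, ?_, ?_⟩
    · intro i
      rw [nr1]
      show (X : ℝ) ^ (0 : ℝ) ≤ _
      rw [Real.rpow_zero]
      exact mb2_one h _
    · intro i
      rw [nr1]
      show _ ≤ (X : ℝ) ^ (0 + 100 * p.ep / 50)
      have e : (0 : ℝ) + 100 * p.ep / 50 = 2 * p.ep := by ring
      rw [e]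
      exact mb2_upp hp hτ hX2 hX3 h _
    · intro i
      rw [dn_rt h j i]
      by_cases hi : i + j = 10
      · rw [if_pos hi]
        exact squarefree_one
      · rw [if_neg hi]
        exact (h.dp _ (dp i hi).1 (dp i hi).2).1
    · intro i q hq hqd
      rw [dn_rt h j i] at hqd
      by_cases hi : i + j = 10
      · rw [if_pos hi] at hqd
        exact absurd (Nat.dvd_one.1 hqd) hq.one_lt.ne'
      · rw [if_neg hi] at hqd
        have h1 := ((h.dp _ (dp i hi).1 (dp i hi).2).2 q hq hqd).2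
        exact (Nat.floor_lt' hq.ne_zero).mpr h1
    · intro i l hil
      rw [dn_rt h j i, dn_rt h j l]
      by_cases hi : i + j = 10
      · rw [if_pos hi]
        exact Nat.coprime_one_left _
      · by_cases hl : l + j = 10
        · rw [if_pos hl]
          exact Nat.coprime_one_right _
        · rw [if_neg hi, if_neg hl]
          have hne : (i + j).val ≠ (l + j).val := fun e => shift i l hil (Fin.ext e)
          rcases lt_or_gt_of_ne hne with hlt | hlt
          · exact h.cop _ _ (dp i hi).1 (by omega) (dp l hl).2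
          · exact (h.cop _ _ (dp l hl).1 (by omega) (dp i hi).2).symm
    · intro i l h1 h2
      rw [dn_rt h j i]
      by_cases hi : i + j = 10
      · rw [if_pos hi]
        exact Nat.coprime_one_left _
      · rw [if_neg hi]
        have hlt : (i + j).val < 10 := by
          have := (dp i hi).2
          omega
        have c1 : (⟨(i + j).val, hlt⟩ : Fin 10).castSucc = i + j := Fin.ext rfl
        have c2 : (⟨(i + j).val, hlt⟩ : Fin 10).succ = i + j + 1 := by
          apply Fin.ext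
          show (i + j).val + 1 = (i + j + 1).val
          rw [Fin.val_add]
          show _ = ((i + j).val + 1) % 11
          omega
        have k := h.nice ⟨(i + j).val, hlt⟩ (l + j) (by
          rw [c1]
          exact shift l i h1) (by
          rw [c2]
          have e : i + j + 1 = (i + 1) + j := by
            rw [add_assoc, add_comm j 1, ← add_assoc]
          rw [e]
          exact shift l (i + 1) h2)
        rw [c1] at k
        exact k
  refine ⟨⟨poly, ?_, ?_, ?_, ?_, ?_⟩, ?_⟩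
  · intro i l hil
    rw [nr1, nr1]
    show p.c1 * (nm (u (i + j)) : ℝ) * (nm (u (l + j)) : ℝ) ≤ |(dt (u (i + j)) (u (l + j)) : ℝ)|
    have hne : (i + j).val ≠ (l + j).val := fun e => shift i l hil (Fin.ext e)
    rcases lt_or_gt_of_ne hne with hlt | hlt
    · have k := (mb2_dt hc h (a := i + j) (b := l + j) (Fin.lt_def.2 hlt)).1
      refine le_trans ?_ (le_abs_self _)
      linarith
    · have k := (mb2_dt hc h (a := l + j) (b := i + j) (Fin.lt_def.2 hlt)).1
      rw [mb2_neg (u (i + j)) (u (l + j))]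
      push_cast
      rw [abs_neg]
      refine le_trans ?_ (le_abs_self _)
      linarith
  · intro i c hic
    unfold PENK.fx at hic
    by_cases h1 : i = mM j
    · rw [if_pos h1] at hic
      have hc' : (0, 1) = c := by simpa using hic
      have e : i + j = 10 := by
        rw [h1]
        unfold mM
        exact sub_add_cancel _ _
      rw [← hc']
      show u (i + j) = (0, 1)
      rw [e]
      exact h.last
    · rw [if_neg h1] at hic
      by_cases h2 : i = mM j + 1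
      · rw [if_pos h2] at hic
        have hc' : (1, 0) = c := by simpa using hic
        have e : i + j = 0 := by
          rw [h2]
          unfold mM
          exact mb2_zero j
        rw [← hc']
        show u (i + j) = (1, 0)
        rw [e]
        exact h.first
      · rw [if_neg h2] at hic
        simp at hic
  · intro i hi
    rw [nr1, k4]
    obtain ⟨i1, i2⟩ := mb2_inner hi
    exact mb2_low hp hτ hX2 h _ i1 i2
  · intro i1 i2
    rw [nr1, nr1, k4]
    obtain ⟨a1, a2⟩ := mb2_inner i1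
    obtain ⟨b1, b2⟩ := mb2_inner i2
    exact mb2_adj hp hτ hX2 h _ _ (by
      have e : (2 : Fin 11) + j = 1 + j + 1 := by
        clear a1 a2 b1 b2 i1 i2 poly dp sg shift nr1
        revert j
        decide
      exact e) a1 a2 b1 b2
  · intro i1 i2
    rw [nr1, nr1, k4]
    obtain ⟨a1, a2⟩ := mb2_inner i1
    obtain ⟨b1, b2⟩ := mb2_inner i2
    exact mb2_adj hp hτ hX2 h _ _ (by
      have e : (0 : Fin 11) + j = -1 + j + 1 := by
        clear a1 a2 b1 b2 i1 i2 poly dp sg shift nr1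
        revert j
        decide
      exact e) a1 a2 b1 b2
  · intro q hq hqd
    rw [DD_rt h j] at hqd
    unfold Dall at hqd
    obtain ⟨i, hi, hj⟩ := (hq.prime.dvd_finsetProd_iff _).mp hqd
    rw [Finset.mem_Icc] at hi
    exact ((h.dp i hi.1 hi.2).2 q hq hj).1

end Pool.Agent.PENM

namespace Pool.Agent.PENM

open Finset Pool.Agent.PENT Pool.Agent.PATH.NC

theorem isPath_of : type_of% @isPath_of_pr := @isPath_of_pr

end Pool.Agent.PENM
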