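import Pool.Agent.Lib_helper18.PENM.Defs
import Pool.Agent.Lib_helper18.PENKF.DefsQ
import Pool.Agent.Lib_helper18.PENMF.MA1
import Pool.Agent.Lib_helper18.PENMF.MB1

/-! PENK block MB3 (helper72): helper96's `IsPt` in natural indices -/

set_option autoImplicit false

namespace Pool.Agent.PENM

open Finset Pool.Agent.PENT Pool.Agent.PATH.NC

theorem mb3_rt0 (u : Vec 10) (i : Fin 11) : rt 0 u i = u i := by
  unfold rt
  rw [add_zero]

theorem mb3_nr_nm {a : ℤ × ℤ} (h1 : 0 ≤ a.1) (h2 : 0 ≤ a.2) : ((PENK.nr a : ℕ) : ℝ) = (nm a : ℝ) := by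
  have h : ((PENK.nr a : ℕ) : ℤ) = nm a := by
    unfold PENK.nr nm
    rw [Nat.cast_add, Int.natCast_natAbs, Int.natCast_natAbs, abs_of_nonneg h1, abs_of_nonneg h2]
  have h' : (((PENK.nr a : ℕ) : ℤ) : ℝ) = (nm a : ℝ) := congrArg (fun z : ℤ => (z : ℝ)) h
  rwa [Int.cast_natCast] at h'

theorem mb3_last {p : Prm 10} {X : ℕ} {u : Vec 10} (h : GP p X u) : u (10 : Fin 11) = (0, 1) := h.last

theorem mb3_nonneg {p : Prm 10} {X : ℕ} {u : Vec 10} (h : GP p X u) (j : Fin 11) :
    0 ≤ (u j).1 ∧ 0 ≤ (u j).2 := by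
  rcases Nat.eq_zero_or_pos j.val with h0 | h0
  · have : j = 0 := Fin.ext h0
    subst this
    rw [h.first]
    norm_num
  · rcases Nat.lt_or_ge j.val 10 with h1 | h1
    · have := h.pos j h0 h1
      exact ⟨this.1.le, this.2.le⟩
    · have hj : j = 10 := by
        apply Fin.ext
        have := j.isLt
        show j.val = 10
        omega
      subst hj
      rw [mb3_last h]
      norm_num

theorem mb3_nr {p : Prm 10} {X : ℕ} {u : Vec 10} (h : GP p X u) (j : Fin 11) :
    ((PENK.nr (u j) : ℕ) : ℝ) = (nm (u j) : ℝ) :=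
  mb3_nr_nm (mb3_nonneg h j).1 (mb3_nonneg h j).2

theorem mb3_nm_pos {p : Prm 10} {X : ℕ} {u : Vec 10} (h : GP p X u) (j : Fin 11) :
    (0 : ℝ) < (nm (u j) : ℝ) := by
  have hz : 0 < nm (u j) := by
    unfold nm
    rcases Nat.eq_zero_or_pos j.val with h0 | h0
    · have : j = 0 := Fin.ext h0
      subst this
      rw [h.first]
      norm_num
    · rcases Nat.lt_or_ge j.val 10 with h1 | h1
      · have := h.pos j h0 h1
        have a1 := this.1
        have a2 := this.2
        omega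
      · have hj : j = 10 := by
          apply Fin.ext
          have := j.isLt
          show j.val = 10
          omega
        subst hj
        rw [mb3_last h]
        norm_num
  exact_mod_cast hz

theorem mb3_dE1 {p : Prm 10} {X : ℕ} {u : Vec 10} (h : GP p X u) :
    ((dE u 1 : ℕ) : ℝ) = ((u 1).2 : ℝ) ∧ (dt (u 0) (u 1) : ℝ) = ((u 1).2 : ℝ) := by
  have e : dt (u 0) (u 1) = (u 1).2 := by
    unfold dt
    rw [h.first]
    ring
  have e2 : dE u 1 = (dt (u 0) (u 1)).natAbs := by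
    unfold dE
    rw [dif_pos (by norm_num)]
    rfl
  have h2 := (mb3_nonneg h 1).2
  constructor
  · rw [e2, e]
    rw [Nat.cast_natAbs, abs_of_nonneg h2]
  · rw [e]

theorem mb3_dE10 {p : Prm 10} {X : ℕ} {u : Vec 10} (h : GP p X u) :
    ((dE u 10 : ℕ) : ℝ) = ((u 9).1 : ℝ) ∧ (dt (u 9) (u 10) : ℝ) = ((u 9).1 : ℝ) := by
  have e : dt (u 9) (u 10) = (u 9).1 := by
    unfold dt
    rw [mb3_last h]
    ring
  have e2 : dE u 10 = (dt (u 9) (u 10)).natAbs := by
    unfold dE
    rw [dif_pos (by norm_num)]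
    rfl
  have h2 := (mb3_nonneg h 9).1
  constructor
  · rw [e2, e]
    rw [Nat.cast_natAbs, abs_of_nonneg h2]
  · rw [e]

theorem mb3_up {c1 ep ew x n d : ℝ} (hx : 0 < x) (hc : 0 < c1) (hw : 1 / c1 ≤ x ^ ew)
    (h1 : c1 * n ≤ d) (h2 : d ≤ x ^ ep) : n ≤ x ^ (ep + ew) := by
  rw [Real.rpow_add hx]
  have h3 : n ≤ d * (1 / c1) := by
    rw [mul_one_div, le_div_iff₀ hc]
    linarith
  have h4 : (0 : ℝ) < x ^ ep := Real.rpow_pos_of_pos hx _
  calc n ≤ d * (1 / c1) := h3
    _ ≤ x ^ ep * (1 / c1) := by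
        apply mul_le_mul_of_nonneg_right h2
        positivity
    _ ≤ x ^ ep * x ^ ew := mul_le_mul_of_nonneg_left hw h4.le

theorem mb3_main {p : Prm 10} {X : ℕ} {u : Vec 10} (hc : 0 < p.c1) (h : GP p X u)
    {a a' b b' : ℝ} (h1 : (X : ℝ) ^ a ≤ (nm (u 1) : ℝ)) (h1' : (nm (u 1) : ℝ) ≤ (X : ℝ) ^ a')
    (h9 : (X : ℝ) ^ b ≤ (nm (u 9) : ℝ)) (h9' : (nm (u 9) : ℝ) ≤ (X : ℝ) ^ b') :
    PNI.IsPt (qN p a a' b b') X (rt 0 u) := by
  have hdn : ∀ i : Fin 11, PENK.dn (rt 0 u) i = if i = 10 then 1 else dE u (i.val + 1) := by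
    intro i
    have := dn_rt h 0 i
    rwa [add_zero] at this
  have hpos : ∀ i j : Fin 11, i < j → (0 : ℝ) < (dt (u i) (u j) : ℝ) := by
    intro i j hij
    have h2 := h.sep i j hij
    have h3 := mul_pos hc (mul_pos (mb3_nm_pos h i) (mb3_nm_pos h j))
    exact lt_of_lt_of_le h3 h2
  have hanti : ∀ i j : Fin 11, dt (u j) (u i) = - dt (u i) (u j) := by
    intro i j
    unfold dt
    ring
  refine ⟨?_, ?_, ?_, ?_, ?_, ?_, ?_, ?_, ?_⟩
  · rw [mb3_rt0]
    exact h.first
  · rw [mb3_rt0]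
    exact mb3_last h
  · intro j
    rw [mb3_rt0, mb3_nr h j]
    show (X : ℝ) ^ (if j = 0 ∨ j = 10 then (0 : ℝ) else if j = 1 then a else if j = 9 then b else p.e j)
      ≤ _
    split_ifs with c1 c2 c3
    · rw [Real.rpow_zero]
      have : 0 < nm (u j) := by exact_mod_cast mb3_nm_pos h j
      have : (1 : ℤ) ≤ nm (u j) := this
      exact_mod_cast this
    · rw [c2]
      exact h1
    · rw [c3]
      exact h9
    · have hj0 : j.val ≠ 0 := fun e => c1 (Or.inl (Fin.ext e))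
      have hj10 : j.val ≠ 10 := fun e => c1 (Or.inr (Fin.ext e))
      have hj1 : j.val ≠ 1 := fun e => c2 (Fin.ext e)
      have hj9 : j.val ≠ 9 := fun e => c3 (Fin.ext e)
      have hlt := j.isLt
      exact h.low j (by omega) (by omega)
  · intro j
    rw [mb3_rt0, mb3_nr h j]
    show _ ≤ (X : ℝ) ^ (if j = 0 ∨ j = 10 then (0 : ℝ) else if j = 1 then a' else if j = 9 then b' else
      p.e j + p.ew)
    split_ifs with c1 c2 c3
    · rw [Real.rpow_zero]
      rcases c1 with rfl | rfl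
      · rw [h.first]
        norm_num [nm]
      · rw [mb3_last h]
        norm_num [nm]
    · rw [c2]
      exact h1'
    · rw [c3]
      exact h9'
    · have hj0 : j.val ≠ 0 := fun e => c1 (Or.inl (Fin.ext e))
      have hj10 : j.val ≠ 10 := fun e => c1 (Or.inr (Fin.ext e))
      have hj1 : j.val ≠ 1 := fun e => c2 (Fin.ext e)
      have hj9 : j.val ≠ 9 := fun e => c3 (Fin.ext e)
      have hlt := j.isLt
      exact h.upp j (by omega) (by omega)
  · intro i j hij
    rw [mb3_rt0, mb3_rt0]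
    exact_mod_cast hpos i j hij
  · intro i j hij
    rw [mb3_rt0, mb3_rt0, mb3_nr h i, mb3_nr h j]
    show p.c1 * (nm (u i) : ℝ) * (nm (u j) : ℝ) ≤ |(dt (u i) (u j) : ℝ)|
    rcases lt_or_gt_of_ne hij with hl | hl
    · rw [abs_of_pos (hpos i j hl), mul_assoc]
      exact h.sep i j hl
    · rw [hanti j i]
      push_cast
      rw [abs_neg, abs_of_pos (hpos j i hl), mul_assoc, mul_comm (nm (u i) : ℝ)]
      exact h.sep j i hl
  · intro j
    rw [hdn j]
    split_ifs with c
    · exact squarefree_one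
    · have hj : j.val ≠ 10 := fun e => c (Fin.ext e)
      have hlt := j.isLt
      exact (h.dp (j.val + 1) (by omega) (by omega)).1
  · intro i j hij
    rw [hdn i, hdn j]
    split_ifs with c d d
    · exact Nat.coprime_one_left 1
    · exact Nat.coprime_one_left _
    · exact Nat.coprime_one_right _
    · have hi : i.val ≠ 10 := fun e => c (Fin.ext e)
      have hj : j.val ≠ 10 := fun e => d (Fin.ext e)
      have hlt := j.isLt
      have hlt' := i.isLt
      have hne : i.val ≠ j.val := fun e => hij (Fin.ext e)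
      rcases lt_or_gt_of_ne hne with hl | hl
      · exact h.cop (i.val + 1) (j.val + 1) (by omega) (by omega) (by omega)
      · exact (h.cop (j.val + 1) (i.val + 1) (by omega) (by omega) (by omega)).symm
  · intro j k hk hk'
    rw [hdn j, mb3_rt0, mb3_rt0]
    split_ifs with c
    · exact Nat.coprime_one_left _
    · have hj : j.val ≠ 10 := fun e => c (Fin.ext e)
      have hlt := j.isLt
      have hj' : j.val < 10 := by omega
      have e1 : (⟨j.val, hj'⟩ : Fin 10).castSucc = j := Fin.ext rfl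
      have e2 : (⟨j.val, hj'⟩ : Fin 10).succ = j + 1 := by
        apply Fin.ext
        rw [Fin.val_succ, Fin.val_add_one_of_lt]
        show j.val < 10
        exact hj'
      have h3 := h.nice ⟨j.val, hj'⟩ k (by rw [e1]; exact hk) (by rw [e2]; exact hk')
      rw [e1] at h3
      exact h3

theorem isPt_of_pr {p : Prm 10} {τ : ℝ} (hp : p.Ok τ) (hτ : τ ≤ 1 / 1000) : ∃ X₀ : ℕ, 2 ≤ X₀ ∧
    ∀ X ≥ X₀, ∀ u : Vec 10, GP p X u →
      PNI.IsPt (qN p p.em (p.ep + p.ew) p.em (p.ep + p.ew)) X (rt 0 u) ∧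
      ∀ a b : ℝ, (X : ℝ) ^ a ≤ (nm (u 1) : ℝ) → (nm (u 1) : ℝ) ≤ (X : ℝ) ^ (a + p.ew) →
        (X : ℝ) ^ b ≤ (nm (u 9) : ℝ) → (nm (u 9) : ℝ) ≤ (X : ℝ) ^ (b + p.ew) →
        PNI.IsPt (qN p a (a + p.ew) b (b + p.ew)) X (rt 0 u) := by
  have hc : 0 < p.c1 := hp.c10
  have hw : 0 < p.ew := hp.ew0
  obtain ⟨N, hN⟩ : ∃ N : ℕ, ∀ X ≥ N, 1 / p.c1 ≤ (X : ℝ) ^ p.ew := by
    have h1 := (tendsto_rpow_atTop hw).comp tendsto_natCast_atTop_atTop
    have h2 := (Filter.tendsto_atTop.1 h1) (1 / p.c1)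
    obtain ⟨N, hN⟩ := Filter.eventually_atTop.1 h2
    exact ⟨N, fun X hX => hN X hX⟩
  refine ⟨max N 2, le_max_right _ _, fun X hX u h => ?_⟩
  have hXN : N ≤ X := le_trans (le_max_left _ _) hX
  have hX2 : 2 ≤ X := le_trans (le_max_right _ _) hX
  have hx : (0 : ℝ) < X := by
    have : 0 < X := by omega
    exact_mod_cast this
  have hwX := hN X hXN
  have hnm0 : nm (u 0) = 1 := by
    rw [h.first]
    norm_num [nm]
  have hnm10 : nm (u 10) = 1 := by
    rw [mb3_last h]
    norm_num [nm]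
  constructor
  · apply mb3_main hc h
    · have h1 := h.e1.lo
      rw [(mb3_dE1 h).1] at h1
      refine le_trans h1 ?_
      have h2 := (mb3_nonneg h 1).1
      have : (u 1).2 ≤ nm (u 1) := by
        unfold nm
        omega
      exact_mod_cast this
    · have h1 := h.e1.hi
      rw [(mb3_dE1 h).1] at h1
      have h2 := h.sep 0 1 (by norm_num)
      rw [(mb3_dE1 h).2, hnm0] at h2
      push_cast at h2
      rw [one_mul] at h2
      exact mb3_up hx hc hwX h2 h1
    · have h1 := h.e2.lo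
      rw [(mb3_dE10 h).1] at h1
      refine le_trans h1 ?_
      have h2 := (mb3_nonneg h 9).2
      have : (u 9).1 ≤ nm (u 9) := by
        unfold nm
        omega
      exact_mod_cast this
    · have h1 := h.e2.hi
      rw [(mb3_dE10 h).1] at h1
      have h2 := h.sep 9 10 (by decide)
      rw [(mb3_dE10 h).2, hnm10] at h2
      push_cast at h2
      rw [mul_one] at h2
      exact mb3_up hx hc hwX h2 h1
  · intro a b h1 h1' h9 h9'
    exact mb3_main hc h h1 h1' h9 h9'

theorem rot_rt_pr (j : Fin 11) (u : Vec 10) : PNI.rot j (rt 0 u) = rt j u := by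
  funext i
  unfold PNI.rot rt
  rw [add_zero]

end Pool.Agent.PENM

namespace Pool.Agent.PENM

open Finset Pool.Agent.PENT Pool.Agent.PATH.NC

theorem isPt_of : type_of% @isPt_of_pr := @isPt_of_pr

theorem rot_rt : type_of% @rot_rt_pr := @rot_rt_pr

end Pool.Agent.PENM
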