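import Pool.Agent.Lib_helper18.PENM.Defs
import Pool.Agent.Lib_helper18.PENKF.DefsQ
import Pool.Agent.Lib_helper18.PENMF.MB1

/-! PENM (MP_892e4c_nt), block MB4 (helper31) -/

set_option autoImplicit false

namespace Pool.Agent.PENM

open Finset Pool.Agent.PENT Pool.Agent.PATH.NC

theorem mb4_disc {p : Prm 10} {C1 : ℝ} {X : ℕ} {s : (ℤ × ℤ × ℤ) × Vec 10} (h : TT p C1 X s) :
    s.1.1 * s.1.2.2 - s.1.2.1 ^ 2 = 1 := by
  have h1 := h.aw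
  unfold AW at h1
  exact (mem_filter.1 h1).2.1

theorem mb4_gd {p : Prm 10} {C1 : ℝ} {X : ℕ} {s : (ℤ × ℤ × ℤ) × Vec 10} (h : TT p C1 X s) :
    GD s.1 s.2 := by
  by_contra hn
  apply h.w
  unfold W
  rw [if_neg hn]

theorem mb4_dE (u : Vec 10) (i : Fin 10) :
    dE u (i.val + 1) = (dt (u i.castSucc) (u i.succ)).natAbs := by
  unfold dE
  rw [dif_pos ⟨by omega, by omega⟩]
  rfl

theorem mb4_one {p : Prm 10} {X : ℕ} {u : Vec 10} (h : GP p X u) (i : Fin 10) :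
    dt (u i.castSucc) (u i.succ) ≠ 0 := by
  have h1 := (h.dp (i.val + 1) (by omega) (by omega)).1
  intro h0
  rw [mb4_dE, h0] at h1
  exact not_squarefree_zero h1

theorem mb4_cases (j : Fin 11) : j = 10 ∨ ∃ i : Fin 10, j = i.castSucc := by
  rcases lt_or_ge j.val 10 with h | h
  · exact Or.inr ⟨⟨j.val, h⟩, rfl⟩
  · left
    apply Fin.ext
    have := j.isLt
    show j.val = 10
    omega

theorem mb4_r0 (i : Fin 10) (u : Vec 10) : rt i.castSucc u 0 = u i.castSucc := by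
  unfold rt
  rw [zero_add]

theorem mb4_r1 (i : Fin 10) (u : Vec 10) : rt i.castSucc u 1 = u i.succ := by
  unfold rt
  exact congrArg u ((add_comm (1 : Fin 11) i.castSucc).trans Fin.coeSucc_eq_succ)

theorem mb4_t0 {p : Prm 10} {X : ℕ} {u : Vec 10} (h : GP p X u) : rt 10 u 0 = (0, 1) := by
  unfold rt
  rw [zero_add]
  exact h.last

theorem mb4_t1 {p : Prm 10} {X : ℕ} {u : Vec 10} (h : GP p X u) : rt 10 u 1 = (1, 0) := by
  unfold rt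
  have : (1 + 10 : Fin 11) = 0 := by decide
  rw [this]
  exact h.first

theorem mb4_dl (u : PENK.PolyK 11) : PENK.dl u 0 = dt (u 0) (u 1) := by
  unfold PENK.dl
  rw [zero_add]

theorem mb4_ne {p : Prm 10} {X : ℕ} {u : Vec 10} (h : GP p X u) (j : Fin 11) :
    PENK.dl (rt j u) 0 ≠ 0 := by
  rw [mb4_dl]
  rcases mb4_cases j with hj | ⟨i, hi⟩
  · subst hj
    rw [mb4_t0 h, mb4_t1 h]
    decide
  · subst hi
    rw [mb4_r0, mb4_r1]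
    exact mb4_one h i

theorem mb4_dvd {p : Prm 10} {C1 : ℝ} {X : ℕ} (j : Fin 11) {s : (ℤ × ℤ × ℤ) × Vec 10}
    (h : TT p C1 X s) :
    PENK.dl (rt j s.2) 0 ∣ fv s.1 (rt j s.2 0) ∧ PENK.dl (rt j s.2) 0 ∣ fv s.1 (rt j s.2 1) := by
  rw [mb4_dl]
  rcases mb4_cases j with hj | ⟨i, hi⟩
  · subst hj
    rw [mb4_t0 h.gp, mb4_t1 h.gp]
    have : dt ((0, 1) : ℤ × ℤ) ((1, 0) : ℤ × ℤ) = -1 := by decide
    rw [this]
    exact ⟨⟨-fv s.1 (0, 1), by ring⟩, ⟨-fv s.1 (1, 0), by ring⟩⟩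
  · subst hi
    rw [mb4_r0, mb4_r1]
    have h1 := mb4_gd h i
    rw [mb4_dE] at h1
    exact ⟨Int.natAbs_dvd.1 h1.1, Int.natAbs_dvd.1 h1.2⟩

theorem mb4_dvb {p : Prm 10} {C1 : ℝ} {X : ℕ} (j : Fin 11) {s : (ℤ × ℤ × ℤ) × Vec 10}
    (h : TT p C1 X s) :
    PENK.dl (rt j s.2) 0 ∣ bf s.1.1 s.1.2.1 s.1.2.2 (rt j s.2 0) (rt j s.2 1) := by
  obtain ⟨h1, h2⟩ := mb4_dvd j h
  rw [mb4_dl] at h1 h2 ⊢
  obtain ⟨n, hn⟩ := edge_exists (mb4_disc h) h1 h2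
  exact ⟨n, by rw [hn]; ring⟩

/-- BLOCK MB4 -/
theorem RB_mul_pr {p : Prm 10} {C1 : ℝ} {X : ℕ} (j : Fin 11) {s : (ℤ × ℤ × ℤ) × Vec 10}
    (h : TT p C1 X s) :
    0 < |PENK.dl (rt j s.2) 0| ∧
    (RB j s.1 s.2).1 * |PENK.dl (rt j s.2) 0| = fv s.1 (rt j s.2 0) ∧
    (RB j s.1 s.2).2.1 * |PENK.dl (rt j s.2) 0| =
      bf s.1.1 s.1.2.1 s.1.2.2 (rt j s.2 0) (rt j s.2 1) ∧
    (RB j s.1 s.2).2.2 * |PENK.dl (rt j s.2) 0| = fv s.1 (rt j s.2 1) :=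
  ⟨abs_pos.2 (mb4_ne h.gp j),
    Int.ediv_mul_cancel ((abs_dvd _ _).2 (mb4_dvd j h).1),
    Int.ediv_mul_cancel ((abs_dvd _ _).2 (mb4_dvb j h)),
    Int.ediv_mul_cancel ((abs_dvd _ _).2 (mb4_dvd j h).2)⟩

theorem RB_cv_pr {p : Prm 10} {C1 : ℝ} {X : ℕ} (j : Fin 11) {s : (ℤ × ℤ × ℤ) × Vec 10}
    (h : TT p C1 X s) (k : Fin 11) :
    PENK.Rf (RB j s.1 s.2) (PENK.cv (rt j s.2) k) =
      |PENK.dl (rt j s.2) 0| * fv s.1 (rt j s.2 k) := by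
  obtain ⟨hD, e1, e3, e2⟩ := RB_mul_pr j h
  have e4 : |PENK.dl (rt j s.2) 0| * |PENK.dl (rt j s.2) 0| =
      dt (rt j s.2 0) (rt j s.2 1) * dt (rt j s.2 0) (rt j s.2 1) := by
    rw [abs_mul_abs_self, mb4_dl]
  generalize |PENK.dl (rt j s.2) 0| = D at *
  generalize RB j s.1 s.2 = R at *
  apply mul_left_cancel₀ hD.ne'
  have key : fv s.1 (rt j s.2 0) * dt (rt j s.2 k) (rt j s.2 1) ^ 2 +
      2 * bf s.1.1 s.1.2.1 s.1.2.2 (rt j s.2 0) (rt j s.2 1) * dt (rt j s.2 k) (rt j s.2 1) *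
        dt (rt j s.2 0) (rt j s.2 k) +
      fv s.1 (rt j s.2 1) * dt (rt j s.2 0) (rt j s.2 k) ^ 2 =
      dt (rt j s.2 0) (rt j s.2 1) * dt (rt j s.2 0) (rt j s.2 1) * fv s.1 (rt j s.2 k) := by
    unfold fv qf bf dt
    ring
  rw [← mul_assoc, e4, ← key]
  unfold PENK.Rf PENK.cv qf
  simp only
  linear_combination dt (rt j s.2 k) (rt j s.2 1) ^ 2 * e1 +
    dt (rt j s.2 0) (rt j s.2 k) ^ 2 * e2 +
    2 * dt (rt j s.2 k) (rt j s.2 1) * dt (rt j s.2 0) (rt j s.2 k) * e3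

theorem RB_inj_pr {p : Prm 10} {C1 : ℝ} {X : ℕ} (j : Fin 11) {s s' : (ℤ × ℤ × ℤ) × Vec 10}
    (h : TT p C1 X s) (h' : TT p C1 X s') (hR : bT j s' = bT j s)
    (hu : rt j s'.2 = rt j s.2) : s' = s := by
  obtain ⟨hD, eg, en, eg'⟩ := RB_mul_pr j h
  obtain ⟨hD', fg, fn, fg'⟩ := RB_mul_pr j h'
  have hR' : RB j s'.1 s'.2 = RB j s.1 s.2 := hR
  rw [hR', hu] at fg fg' fn
  rw [eg] at fg
  rw [eg'] at fg'
  rw [en] at fn
  have hne : dt (rt j s.2 0) (rt j s.2 1) ≠ 0 := by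
    rw [← mb4_dl]
    exact mb4_ne h.gp j
  have hne2 := pow_ne_zero 2 hne
  generalize rt j s.2 0 = u at *
  generalize rt j s.2 1 = v at *
  unfold fv qf at fg fg'
  unfold bf at fn
  have ea : s'.1.1 = s.1.1 := by
    apply mul_left_cancel₀ hne2
    unfold dt
    linear_combination (-v.2 ^ 2) * fg + 2 * v.2 * u.2 * fn - u.2 ^ 2 * fg'
  have ec : s'.1.2.2 = s.1.2.2 := by
    apply mul_left_cancel₀ hne2
    unfold dt
    linear_combination (-v.1 ^ 2) * fg + 2 * v.1 * u.1 * fn - u.1 ^ 2 * fg'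
  have eb : s'.1.2.1 = s.1.2.1 := by
    apply mul_left_cancel₀ hne2
    unfold dt
    linear_combination (v.1 * v.2) * fg - (v.1 * u.2 + v.2 * u.1) * fn + (u.1 * u.2) * fg'
  have eu : s'.2 = s.2 := by
    funext i
    have := congrFun hu (i - j)
    unfold rt at this
    rwa [sub_add_cancel] at this
  exact Prod.ext (Prod.ext ea (Prod.ext eb ec)) eu

/-- `j = 10`: the base determines the form, and conversely -/
theorem RB_ten_pr {p : Prm 10} {C1 : ℝ} {X : ℕ} {s : (ℤ × ℤ × ℤ) × Vec 10} (h : TT p C1 X s) :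
    bT 10 s = (s.1.2.2, s.1.2.1, s.1.1) := by
  unfold bT RB
  rw [mb4_dl, mb4_t0 h.gp, mb4_t1 h.gp]
  have : |dt ((0, 1) : ℤ × ℤ) ((1, 0) : ℤ × ℤ)| = 1 := by decide
  rw [this]
  simp only [Int.ediv_one]
  unfold fv qf bf
  simp

theorem RB_nj_pr {p : Prm 10} {C1 : ℝ} {X : ℕ} (j : Fin 10) {s : (ℤ × ℤ × ℤ) × Vec 10}
    (h : TT p C1 X s) : (bT j.castSucc s).2.1.natAbs = nj s.1 s.2 j := by
  unfold bT RB nj
  simp only
  rw [mb4_dl, mb4_r0, mb4_r1]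
  rcases abs_choice (dt (s.2 j.castSucc) (s.2 j.succ)) with h1 | h1 <;> rw [h1]
  rw [Int.ediv_neg, Int.natAbs_neg]

end Pool.Agent.PENM

namespace Pool.Agent.PENM

open Finset Pool.Agent.PENT Pool.Agent.PATH.NC

theorem RB_mul : type_of% @RB_mul_pr := @RB_mul_pr

theorem RB_cv : type_of% @RB_cv_pr := @RB_cv_pr

theorem RB_inj : type_of% @RB_inj_pr := @RB_inj_pr

theorem RB_ten : type_of% @RB_ten_pr := @RB_ten_pr

theorem RB_nj : type_of% @RB_nj_pr := @RB_nj_pr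

end Pool.Agent.PENM
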