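import Pool.Agent.Lib_helper18.PENM.Defs
import Pool.Agent.Lib_helper18.PENKF.DefsQ
import Pool.Agent.Lib_helper18.PENMF.MA1
import Pool.Agent.Lib_helper18.PENMF.MB1
import Pool.Agent.Lib_helper18.PENMF.MB4

set_option autoImplicit false

namespace Pool.Agent.PENM

open Finset Pool.Agent.PENT Pool.Agent.PATH.NC

/-- the coordinates of a vertex are nonnegative and their sum is positive -/
theorem mb5_pos {p : Prm 10} {X : ℕ} {u : Vec 10} (h : GP p X u) (i : Fin 11) :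
    0 ≤ (u i).1 ∧ 0 ≤ (u i).2 ∧ 1 ≤ nm (u i) := by
  unfold nm
  by_cases h0 : i = 0
  · subst h0
    rw [h.first]
    norm_num
  · by_cases h1 : i = Fin.last 10
    · subst h1
      rw [h.last]
      norm_num
    · have e0 : 1 ≤ i.val := by
        by_contra hh
        apply h0
        apply Fin.ext
        simp only [Fin.val_zero]
        omega
      have e1 : i.val + 1 ≤ 10 := by
        have := i.isLt
        by_contra hh
        apply h1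
        apply Fin.ext
        simp only [Fin.val_last]
        omega
      have := h.pos i e0 e1
      omega

theorem mb5_nr {p : Prm 10} {X : ℕ} {u : Vec 10} (h : GP p X u) (i : Fin 11) :
    ((PENK.nr (u i) : ℕ) : ℤ) = nm (u i) := by
  obtain ⟨h1, h2, _⟩ := mb5_pos h i
  unfold PENK.nr nm
  omega

theorem mb5_dt (a b : ℤ × ℤ) : dt a b = - dt b a := by
  unfold dt
  ring

/-- separation in both orders -/
theorem mb5_sep {p : Prm 10} {X : ℕ} {u : Vec 10} (h : GP p X u) {i l : Fin 11} (hil : i ≠ l) :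
    p.c1 * ((nm (u i) : ℝ) * (nm (u l) : ℝ)) ≤ ((|dt (u i) (u l)| : ℤ) : ℝ) := by
  rcases lt_or_gt_of_ne hil with h1 | h1
  · refine (h.sep i l h1).trans ?_
    push_cast
    exact le_abs_self _
  · have h2 := h.sep l i h1
    rw [mb5_dt (u i) (u l), abs_neg]
    calc p.c1 * ((nm (u i) : ℝ) * (nm (u l) : ℝ)) = p.c1 * ((nm (u l) : ℝ) * (nm (u i) : ℝ)) := by
          ring
      _ ≤ (dt (u l) (u i) : ℝ) := h2
      _ ≤ _ := by
          push_cast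
          exact le_abs_self _

theorem mb5_dup {p : Prm 10} {X : ℕ} {u : Vec 10} (h : GP p X u) (i l : Fin 11) :
    |dt (u i) (u l)| ≤ nm (u i) * nm (u l) := by
  obtain ⟨h1, h2, _⟩ := mb5_pos h i
  obtain ⟨h3, h4, _⟩ := mb5_pos h l
  unfold dt nm
  rw [abs_le]
  constructor <;>
    nlinarith [mul_nonneg h1 h3, mul_nonneg h1 h4, mul_nonneg h2 h3, mul_nonneg h2 h4]

/-- the edges divide the values of the form -/
theorem mb5_dvd {p : Prm 10} {C1 : ℝ} {X : ℕ} (j : Fin 11) {s : (ℤ × ℤ × ℤ) × Vec 10}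
    (h : TT p C1 X s) (i : Fin 11) :
    PENK.dl (rt j s.2) i ∣ fv s.1 (rt j s.2 i) ∧
      PENK.dl (rt j s.2) i ∣ fv s.1 (rt j s.2 (i + 1)) := by
  by_cases hi : i + j = 10
  · rw [dl_open h.gp j i hi]
    exact ⟨Int.neg_dvd.2 (one_dvd _), Int.neg_dvd.2 (one_dvd _)⟩
  · have hlt : (i + j).val < 10 := by
      have h1 := (i + j).isLt
      have h2 : (i + j).val ≠ 10 := fun e => hi (Fin.ext e)
      omega
    have hg := h.gd ⟨(i + j).val, hlt⟩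
    have e1 : (⟨(i + j).val, hlt⟩ : Fin 10).castSucc = i + j := Fin.ext rfl
    have e2 : (⟨(i + j).val, hlt⟩ : Fin 10).succ = i + 1 + j := by
      have e3 : i + 1 + j = (i + j) + 1 := add_right_comm i 1 j
      rw [e3]
      apply Fin.ext
      rw [Fin.val_succ, Fin.val_add_one_of_lt]
      exact Fin.lt_def.2 (by simpa using hlt)
    rw [e1, e2] at hg
    have e4 := dn_rt h.gp j i
    rw [if_neg hi] at e4
    have e5 : ((PENK.dn (rt j s.2) i : ℕ) : ℤ) = ((dE s.2 ((i + j).val + 1) : ℕ) : ℤ) := by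
      rw [e4]
    constructor
    · apply Int.natAbs_dvd.1
      change ((PENK.dn (rt j s.2) i : ℕ) : ℤ) ∣ _
      rw [e5]
      exact hg.1
    · apply Int.natAbs_dvd.1
      change ((PENK.dn (rt j s.2) i : ℕ) : ℤ) ∣ _
      rw [e5]
      exact hg.2

/-- different edges are coprime -/
theorem mb5_cop {p : Prm 10} {X : ℕ} {u : Vec 10} (h : GP p X u) (j : Fin 11) {i l : Fin 11}
    (hil : i ≠ l) : Nat.Coprime (PENK.dn (rt j u) i) (PENK.dn (rt j u) l) := by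
  rw [dn_rt h j i, dn_rt h j l]
  split_ifs with h1 h2 h2
  · exact Nat.coprime_one_left _
  · exact Nat.coprime_one_left _
  · exact Nat.coprime_one_right _
  · have g1 : (i + j).val ≤ 9 := by
      have h3 := (i + j).isLt
      have h4 : (i + j).val ≠ 10 := fun e => h1 (Fin.ext e)
      omega
    have g2 : (l + j).val ≤ 9 := by
      have h3 := (l + j).isLt
      have h4 : (l + j).val ≠ 10 := fun e => h2 (Fin.ext e)
      omega
    have g3 : (i + j).val ≠ (l + j).val := by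
      intro e
      exact hil (add_right_cancel (Fin.ext e))
    rcases lt_or_gt_of_ne g3 with g | g
    · exact h.cop _ _ (by omega) (by omega) (by omega)
    · exact (h.cop _ _ (by omega) (by omega) (by omega)).symm

theorem mb5_icop {p : Prm 10} {X : ℕ} {u : Vec 10} (h : GP p X u) (j : Fin 11) {i l : Fin 11}
    (hil : i ≠ l) : IsCoprime (PENK.dl (rt j u) i) |PENK.dl (rt j u) l| := by
  have h1 := mb5_cop h j hil
  have h2 : IsCoprime ((PENK.dn (rt j u) i : ℕ) : ℤ) ((PENK.dn (rt j u) l : ℕ) : ℤ) :=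
    Nat.isCoprime_iff_coprime.2 h1
  have e1 : ((PENK.dn (rt j u) i : ℕ) : ℤ) = |PENK.dl (rt j u) i| := by
    unfold PENK.dn
    rw [Int.natCast_natAbs]
  have e2 : ((PENK.dn (rt j u) l : ℕ) : ℤ) = |PENK.dl (rt j u) l| := by
    unfold PENK.dn
    rw [Int.natCast_natAbs]
  rw [e1, e2] at h2
  rcases abs_choice (PENK.dl (rt j u) i) with h3 | h3
  · rw [h3] at h2
    exact h2
  · rw [h3] at h2
    have := h2.neg_left
    rwa [neg_neg] at this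

/-- the value of the form, from below and above (real numbers) -/
theorem mb5_fv {p : Prm 10} {C1 : ℝ} (hC1 : 1 ≤ C1) {X : ℕ} (hX : 1 ≤ X)
    {s : (ℤ × ℤ × ℤ) × Vec 10} (h : TT p C1 X s) (i : Fin 11) :
    (X : ℝ) * (nm (s.2 i) : ℝ) ^ 2 ≤ 2 * C1 ^ 2 * (fv s.1 (s.2 i) : ℝ) ∧
      (fv s.1 (s.2 i) : ℝ) ≤ 5 * C1 ^ 2 * X * (nm (s.2 i) : ℝ) ^ 2 := by
  obtain ⟨_, ⟨a1, a2⟩, ⟨b1, b2⟩, ⟨c1, c2⟩⟩ := h.form hC1 hX
  obtain ⟨x0, y0, _⟩ := mb5_pos h.gp i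
  have x0' : (0 : ℝ) ≤ ((s.2 i).1 : ℝ) := by exact_mod_cast x0
  have y0' : (0 : ℝ) ≤ ((s.2 i).2 : ℝ) := by exact_mod_cast y0
  have hX' : (1 : ℝ) ≤ X := by exact_mod_cast hX
  have hC0 : 0 < C1 := by linarith
  have hC2 : 1 ≤ C1 ^ 2 := one_le_pow₀ hC1
  have hC3 : C1 ≤ C1 ^ 2 := by nlinarith
  have ef : (fv s.1 (s.2 i) : ℝ) = (s.1.1 : ℝ) * ((s.2 i).1 : ℝ) ^ 2 +
      2 * (s.1.2.1 : ℝ) * ((s.2 i).1 : ℝ) * ((s.2 i).2 : ℝ) +
      (s.1.2.2 : ℝ) * ((s.2 i).2 : ℝ) ^ 2 := by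
    unfold fv qf
    push_cast
    ring
  have en : (nm (s.2 i) : ℝ) = ((s.2 i).1 : ℝ) + ((s.2 i).2 : ℝ) := by
    unfold nm
    push_cast
    ring
  rw [ef, en]
  have hxy : 0 ≤ ((s.2 i).1 : ℝ) * ((s.2 i).2 : ℝ) := mul_nonneg x0' y0'
  -- coefficient bounds
  have la : (X : ℝ) ≤ 2 * C1 ^ 2 * (s.1.1 : ℝ) := by nlinarith
  have lb : (X : ℝ) ≤ 2 * C1 ^ 2 * (s.1.2.1 : ℝ) := by
    have h1 : (X : ℝ) ≤ (s.1.2.1 : ℝ) * C1 := (div_le_iff₀ hC0).1 b1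
    have hb0 : 0 ≤ (s.1.2.1 : ℝ) := le_trans (by positivity) b1
    nlinarith [mul_le_mul_of_nonneg_left hC3 hb0]
  have lc : (X : ℝ) ≤ 2 * C1 ^ 2 * (s.1.2.2 : ℝ) := by
    have h1 : (X : ℝ) ≤ (s.1.2.2 : ℝ) * (2 * C1 ^ 2) := (div_le_iff₀ (by positivity)).1 c1
    linarith
  have ua : (s.1.1 : ℝ) ≤ 5 * C1 ^ 2 * X := by nlinarith
  have ub : (s.1.2.1 : ℝ) ≤ 5 * C1 ^ 2 * X := by nlinarith
  constructor
  · have t1 := mul_le_mul_of_nonneg_right la (sq_nonneg ((s.2 i).1 : ℝ))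
    have t2 := mul_le_mul_of_nonneg_right lb hxy
    have t3 := mul_le_mul_of_nonneg_right lc (sq_nonneg ((s.2 i).2 : ℝ))
    nlinarith
  · have t1 := mul_le_mul_of_nonneg_right ua (sq_nonneg ((s.2 i).1 : ℝ))
    have t2 := mul_le_mul_of_nonneg_right ub hxy
    have t3 := mul_le_mul_of_nonneg_right c2 (sq_nonneg ((s.2 i).2 : ℝ))
    nlinarith

/-- the bilinear form, from above and below -/
theorem mb5_bf {p : Prm 10} {C1 : ℝ} (hC1 : 1 ≤ C1) {X : ℕ} (hX : 1 ≤ X)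
    {s : (ℤ × ℤ × ℤ) × Vec 10} (h : TT p C1 X s) (i l : Fin 11) :
    0 < bf s.1.1 s.1.2.1 s.1.2.2 (s.2 i) (s.2 l) ∧
    (bf s.1.1 s.1.2.1 s.1.2.2 (s.2 i) (s.2 l) : ℝ) ≤
      5 * C1 ^ 2 * X * ((nm (s.2 i) : ℝ) * (nm (s.2 l) : ℝ)) := by
  obtain ⟨_, ⟨a1, a2⟩, ⟨b1, b2⟩, ⟨c1, c2⟩⟩ := h.form hC1 hX
  obtain ⟨x0, y0, n0⟩ := mb5_pos h.gp i
  obtain ⟨z0, w0, m0⟩ := mb5_pos h.gp l
  have x0' : (0 : ℝ) ≤ ((s.2 i).1 : ℝ) := by exact_mod_cast x0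
  have y0' : (0 : ℝ) ≤ ((s.2 i).2 : ℝ) := by exact_mod_cast y0
  have z0' : (0 : ℝ) ≤ ((s.2 l).1 : ℝ) := by exact_mod_cast z0
  have w0' : (0 : ℝ) ≤ ((s.2 l).2 : ℝ) := by exact_mod_cast w0
  have hX' : (1 : ℝ) ≤ X := by exact_mod_cast hX
  have hC0 : 0 < C1 := by linarith
  have hC2 : 1 ≤ C1 ^ 2 := one_le_pow₀ hC1
  have hC3 : C1 ≤ C1 ^ 2 := by nlinarith
  have ha : (0 : ℤ) < s.1.1 := by
    have : (0 : ℝ) < (s.1.1 : ℝ) := by linarith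
    exact_mod_cast this
  have hb : (0 : ℤ) < s.1.2.1 := by
    have : (0 : ℝ) < (s.1.2.1 : ℝ) := lt_of_lt_of_le (by positivity) b1
    exact_mod_cast this
  have hc : (0 : ℤ) < s.1.2.2 := by
    have : (0 : ℝ) < (s.1.2.2 : ℝ) := lt_of_lt_of_le (by positivity) c1
    exact_mod_cast this
  constructor
  · have hA : (1 : ℤ) ≤ s.1.1 := ha
    have hB : (1 : ℤ) ≤ s.1.2.1 := hb
    have hCc : (1 : ℤ) ≤ s.1.2.2 := hc
    unfold nm at n0 m0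
    have k1 := mul_nonneg (sub_nonneg.2 hA) (mul_nonneg x0 z0)
    have k2 := mul_nonneg (sub_nonneg.2 hB) (mul_nonneg x0 w0)
    have k3 := mul_nonneg (sub_nonneg.2 hB) (mul_nonneg y0 z0)
    have k4 := mul_nonneg (sub_nonneg.2 hCc) (mul_nonneg y0 w0)
    have k5 : 1 * 1 ≤ ((s.2 i).1 + (s.2 i).2) * ((s.2 l).1 + (s.2 l).2) :=
      mul_le_mul n0 m0 (by norm_num) (by omega)
    unfold bf
    nlinarith
  · have ua : (s.1.1 : ℝ) ≤ 5 * C1 ^ 2 * X := by nlinarith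
    have ub : (s.1.2.1 : ℝ) ≤ 5 * C1 ^ 2 * X := by nlinarith
    have t1 := mul_le_mul_of_nonneg_right ua (mul_nonneg x0' z0')
    have t2 := mul_le_mul_of_nonneg_right ub (mul_nonneg x0' w0')
    have t3 := mul_le_mul_of_nonneg_right ub (mul_nonneg y0' z0')
    have t4 := mul_le_mul_of_nonneg_right c2 (mul_nonneg y0' w0')
    have ef : (bf s.1.1 s.1.2.1 s.1.2.2 (s.2 i) (s.2 l) : ℝ) =
        (s.1.1 : ℝ) * (((s.2 i).1 : ℝ) * ((s.2 l).1 : ℝ)) +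
        (s.1.2.1 : ℝ) * (((s.2 i).1 : ℝ) * ((s.2 l).2 : ℝ)) +
        (s.1.2.1 : ℝ) * (((s.2 i).2 : ℝ) * ((s.2 l).1 : ℝ)) +
        (s.1.2.2 : ℝ) * (((s.2 i).2 : ℝ) * ((s.2 l).2 : ℝ)) := by
      unfold bf
      push_cast
      ring
    have en : (nm (s.2 i) : ℝ) = ((s.2 i).1 : ℝ) + ((s.2 i).2 : ℝ) := by
      unfold nm
      push_cast
      ring
    have em : (nm (s.2 l) : ℝ) = ((s.2 l).1 : ℝ) + ((s.2 l).2 : ℝ) := by
      unfold nm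
      push_cast
      ring
    rw [ef, en, em]
    nlinarith

/-- BLOCK MB5 -/
theorem over_of_pr {p : Prm 10} {τ δ C1 : ℝ} (hp : p.Ok τ) (hτ : τ ≤ 1 / 1000) (hC1 : 1 ≤ C1)
    {X : ℕ} (hX : 1 ≤ X) (j : Fin 11) {s : (ℤ × ℤ × ℤ) × Vec 10} (h : TT p C1 X s) :
    PENK.Over (qM p δ C1 j) X (bT j s) (rt j s.2) ∧ 0 < (bT j s).2.1 := by
  obtain ⟨hD, eg, en, eg'⟩ := RB_mul j h
  obtain ⟨hdisc, -⟩ := h.form hC1 hX
  have hc1 := hp.c10
  have hc2 : p.c1 ≤ 1 / 1000 := hp.c11.trans hτ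
  have hne : (0 : Fin 11) + j ≠ 1 + j := by
    intro e
    exact absurd (add_right_cancel e) (by decide)
  have er0 : rt j s.2 0 = s.2 (0 + j) := rfl
  have er1 : rt j s.2 1 = s.2 (1 + j) := rfl
  have ed : PENK.dl (rt j s.2) 0 = dt (s.2 (0 + j)) (s.2 (1 + j)) := rfl
  have ebT : bT j s = RB j s.1 s.2 := rfl
  have hXr : (1 : ℝ) ≤ X := by exact_mod_cast hX
  have hC0 : 0 < C1 := by linarith
  have hC2 : 1 ≤ C1 ^ 2 := one_le_pow₀ hC1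
  have hC4 : C1 ^ 2 ≤ C1 ^ 4 := pow_le_pow_right₀ hC1 (by norm_num)
  have rdl := mb5_sep h.gp hne
  have rdu : ((|dt (s.2 (0 + j)) (s.2 (1 + j))| : ℤ) : ℝ) ≤
      (nm (s.2 (0 + j)) : ℝ) * (nm (s.2 (1 + j)) : ℝ) := by
    exact_mod_cast mb5_dup h.gp (0 + j) (1 + j)
  rw [← ed] at rdl rdu
  obtain ⟨fl, fu⟩ := mb5_fv hC1 hX h (0 + j)
  obtain ⟨bp, bu⟩ := mb5_bf hC1 hX h (0 + j) (1 + j)
  rw [← er0] at fl fu bp bu rdl rdu
  rw [← er1] at bp bu rdl rdu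
  have p0 : (0 : ℝ) < (nm (rt j s.2 0) : ℝ) := by
    have := (mb5_pos h.gp (0 + j)).2.2
    rw [← er0] at this
    have h2 : (1 : ℝ) ≤ (nm (rt j s.2 0) : ℝ) := by exact_mod_cast this
    linarith
  have p1 : (0 : ℝ) < (nm (rt j s.2 1) : ℝ) := by
    have := (mb5_pos h.gp (1 + j)).2.2
    rw [← er1] at this
    have h2 : (1 : ℝ) ≤ (nm (rt j s.2 1) : ℝ) := by exact_mod_cast this
    linarith
  have hN0 : ((PENK.nr (rt j s.2 0) : ℕ) : ℝ) = (nm (rt j s.2 0) : ℝ) := by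
    exact_mod_cast mb5_nr h.gp (0 + j)
  have hN1 : ((PENK.nr (rt j s.2 1) : ℕ) : ℝ) = (nm (rt j s.2 1) : ℝ) := by
    exact_mod_cast mb5_nr h.gp (1 + j)
  have hDr : (0 : ℝ) < ((|PENK.dl (rt j s.2) 0| : ℤ) : ℝ) := by exact_mod_cast hD
  have rg : ((RB j s.1 s.2).1 : ℝ) * ((|PENK.dl (rt j s.2) 0| : ℤ) : ℝ) =
      (fv s.1 (rt j s.2 0) : ℝ) := by exact_mod_cast eg
  have rn : ((RB j s.1 s.2).2.1 : ℝ) * ((|PENK.dl (rt j s.2) 0| : ℤ) : ℝ) =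
      (bf s.1.1 s.1.2.1 s.1.2.2 (rt j s.2 0) (rt j s.2 1) : ℝ) := by exact_mod_cast en
  have hfpos : (0 : ℝ) < (fv s.1 (rt j s.2 0) : ℝ) := by
    have t : 0 < (X : ℝ) * (nm (rt j s.2 0) : ℝ) ^ 2 := by positivity
    by_contra hh
    push Not at hh
    have : 2 * C1 ^ 2 * (fv s.1 (rt j s.2 0) : ℝ) ≤ 0 :=
      mul_nonpos_of_nonneg_of_nonpos (by positivity) hh
    linarith
  have rgp : (0 : ℝ) < ((RB j s.1 s.2).1 : ℝ) := by
    rw [← rg] at hfpos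
    exact (mul_pos_iff_of_pos_right hDr).1 hfpos
  have hgpos : 0 < (RB j s.1 s.2).1 := by exact_mod_cast rgp
  have hnpos : 0 < (RB j s.1 s.2).2.1 := by
    rw [← en] at bp
    exact (mul_pos_iff_of_pos_right hD).1 bp
  have hCd : (qM p δ C1 j).C4 = 1000 * C1 ^ 4 / p.c1 := rfl
  rw [ebT]
  refine ⟨⟨?_, hgpos, ?_, ?_, ?_, ?_, ?_, ?_, ?_⟩, hnpos⟩
  · -- disc
    have h1 := qf_mul_qf hdisc (rt j s.2 0) (rt j s.2 1)
    have e0 : fv s.1 (rt j s.2 0) = qf s.1.1 s.1.2.1 s.1.2.2 (rt j s.2 0) := rfl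
    have e1 : fv s.1 (rt j s.2 1) = qf s.1.1 s.1.2.1 s.1.2.2 (rt j s.2 1) := rfl
    have e2 : PENK.dl (rt j s.2) 0 = dt (rt j s.2 0) (rt j s.2 1) := rfl
    rw [← e0, ← e1, ← e2, ← eg, ← eg', ← en, ← sq_abs (PENK.dl (rt j s.2) 0)] at h1
    have hD2 : |PENK.dl (rt j s.2) 0| ^ 2 ≠ 0 := (pow_pos hD 2).ne'
    have h2 : |PENK.dl (rt j s.2) 0| ^ 2 *
        ((RB j s.1 s.2).1 * (RB j s.1 s.2).2.2 - (RB j s.1 s.2).2.1 ^ 2) =
        |PENK.dl (rt j s.2) 0| ^ 2 * 1 := by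
      linear_combination h1
    exact mul_left_cancel₀ hD2 h2
  · -- dm
    have h1 := (mb5_dvd j h (-1)).2
    have e1 : (-1 : Fin 11) + 1 = 0 := by decide
    rw [e1, ← eg] at h1
    exact (mb5_icop h.gp j (by decide : (-1 : Fin 11) ≠ 0)).dvd_of_dvd_mul_right h1
  · -- d1
    have h1 := (mb5_dvd j h 1).1
    rw [← eg'] at h1
    exact (mb5_icop h.gp j (by decide : (1 : Fin 11) ≠ 0)).dvd_of_dvd_mul_right h1
  · -- d0
    rw [RB_cv j h 2]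
    exact Dvd.dvd.mul_right ((dvd_abs _ _).2 (dvd_refl _)) _
  · -- dj
    intro i _ _
    rw [RB_cv j h i]
    exact Dvd.dvd.mul_left (mb5_dvd j h i).1 _
  · -- g1
    rw [hCd, hN0, hN1]
    have t1 : (X : ℝ) * (nm (rt j s.2 0) : ℝ) ^ 2 ≤ 2 * C1 ^ 2 *
        (((RB j s.1 s.2).1 : ℝ) * ((nm (rt j s.2 0) : ℝ) * (nm (rt j s.2 1) : ℝ))) := by
      calc (X : ℝ) * (nm (rt j s.2 0) : ℝ) ^ 2 ≤ 2 * C1 ^ 2 * (fv s.1 (rt j s.2 0) : ℝ) := fl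
        _ = 2 * C1 ^ 2 * (((RB j s.1 s.2).1 : ℝ) * ((|PENK.dl (rt j s.2) 0| : ℤ) : ℝ)) := by
            rw [rg]
        _ ≤ _ := by
          apply mul_le_mul_of_nonneg_left _ (by positivity)
          exact mul_le_mul_of_nonneg_left rdu rgp.le
    have t2 : (X : ℝ) * (nm (rt j s.2 0) : ℝ) ≤
        2 * C1 ^ 2 * (((RB j s.1 s.2).1 : ℝ) * (nm (rt j s.2 1) : ℝ)) := by
      refine le_of_mul_le_mul_right ?_ p0
      calc (X : ℝ) * (nm (rt j s.2 0) : ℝ) * (nm (rt j s.2 0) : ℝ) =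
            X * (nm (rt j s.2 0) : ℝ) ^ 2 := by ring
        _ ≤ _ := t1
        _ = _ := by ring
    have t3 : 0 < ((RB j s.1 s.2).1 : ℝ) * (nm (rt j s.2 1) : ℝ) := mul_pos rgp p1
    have t4 : 2 * C1 ^ 2 ≤ 1000 * C1 ^ 4 / p.c1 := by
      rw [le_div_iff₀ hc1]
      nlinarith
    calc (X : ℝ) * (nm (rt j s.2 0) : ℝ) ≤
          2 * C1 ^ 2 * (((RB j s.1 s.2).1 : ℝ) * (nm (rt j s.2 1) : ℝ)) := t2
      _ ≤ (1000 * C1 ^ 4 / p.c1) * (((RB j s.1 s.2).1 : ℝ) * (nm (rt j s.2 1) : ℝ)) :=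
          mul_le_mul_of_nonneg_right t4 t3.le
      _ = _ := by ring
  · -- g2
    rw [hCd, hN0, hN1]
    have t1 : p.c1 * ((nm (rt j s.2 0) : ℝ) * (nm (rt j s.2 1) : ℝ)) *
        ((RB j s.1 s.2).1 : ℝ) ≤ 5 * C1 ^ 2 * X * (nm (rt j s.2 0) : ℝ) ^ 2 := by
      calc _ ≤ ((|PENK.dl (rt j s.2) 0| : ℤ) : ℝ) * ((RB j s.1 s.2).1 : ℝ) :=
            mul_le_mul_of_nonneg_right rdl rgp.le
        _ = (fv s.1 (rt j s.2 0) : ℝ) := by rw [← rg]; ring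
        _ ≤ _ := fu
    have t2 : p.c1 * (((RB j s.1 s.2).1 : ℝ) * (nm (rt j s.2 1) : ℝ)) ≤
        5 * C1 ^ 2 * X * (nm (rt j s.2 0) : ℝ) := by
      refine le_of_mul_le_mul_right ?_ p0
      calc _ = p.c1 * ((nm (rt j s.2 0) : ℝ) * (nm (rt j s.2 1) : ℝ)) *
            ((RB j s.1 s.2).1 : ℝ) := by ring
        _ ≤ _ := t1
        _ = _ := by ring
    have t3 : ((RB j s.1 s.2).1 : ℝ) * (nm (rt j s.2 1) : ℝ) ≤
        (5 * C1 ^ 2 * X * (nm (rt j s.2 0) : ℝ)) / p.c1 := by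
      rw [le_div_iff₀ hc1]
      linarith
    refine t3.trans ?_
    rw [div_mul_eq_mul_div, div_mul_eq_mul_div]
    apply div_le_div_of_nonneg_right _ hc1.le
    have t5 : 0 ≤ (X : ℝ) * (nm (rt j s.2 0) : ℝ) := mul_nonneg (by linarith) p0.le
    have t6 : 5 * C1 ^ 2 ≤ 1000 * C1 ^ 4 := by linarith
    calc 5 * C1 ^ 2 * X * (nm (rt j s.2 0) : ℝ) = 5 * C1 ^ 2 * (X * (nm (rt j s.2 0) : ℝ)) := by
          ring
      _ ≤ 1000 * C1 ^ 4 * (X * (nm (rt j s.2 0) : ℝ)) := mul_le_mul_of_nonneg_right t6 t5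
      _ = _ := by ring
  · -- n1
    rw [hCd]
    have hnr : (0 : ℝ) < ((RB j s.1 s.2).2.1 : ℝ) := by exact_mod_cast hnpos
    rw [abs_of_pos hnr]
    have hM : 0 < (nm (rt j s.2 0) : ℝ) * (nm (rt j s.2 1) : ℝ) := mul_pos p0 p1
    have t1 : (p.c1 * ((RB j s.1 s.2).2.1 : ℝ)) *
        ((nm (rt j s.2 0) : ℝ) * (nm (rt j s.2 1) : ℝ)) ≤
        (5 * C1 ^ 2 * X) * ((nm (rt j s.2 0) : ℝ) * (nm (rt j s.2 1) : ℝ)) := by
      calc _ = p.c1 * ((nm (rt j s.2 0) : ℝ) * (nm (rt j s.2 1) : ℝ)) *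
            ((RB j s.1 s.2).2.1 : ℝ) := by ring
        _ ≤ ((|PENK.dl (rt j s.2) 0| : ℤ) : ℝ) * ((RB j s.1 s.2).2.1 : ℝ) :=
            mul_le_mul_of_nonneg_right rdl hnr.le
        _ = (bf s.1.1 s.1.2.1 s.1.2.2 (rt j s.2 0) (rt j s.2 1) : ℝ) := by rw [← rn]; ring
        _ ≤ _ := bu
    have t2 : p.c1 * ((RB j s.1 s.2).2.1 : ℝ) ≤ 5 * C1 ^ 2 * X := le_of_mul_le_mul_right t1 hM
    have t3 : ((RB j s.1 s.2).2.1 : ℝ) ≤ (5 * C1 ^ 2 * X) / p.c1 := by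
      rw [le_div_iff₀ hc1]
      linarith
    refine t3.trans ?_
    rw [div_mul_eq_mul_div]
    apply div_le_div_of_nonneg_right _ hc1.le
    have t6 : 5 * C1 ^ 2 ≤ 1000 * C1 ^ 4 := by linarith
    exact mul_le_mul_of_nonneg_right t6 (by linarith)

end Pool.Agent.PENM

namespace Pool.Agent.PENM

open Finset Pool.Agent.PENT Pool.Agent.PATH.NC

theorem over_of : type_of% @over_of_pr := @over_of_pr

end Pool.Agent.PENM
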