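import Pool.Agent.Lib_helper18.PENM.Defs
import Pool.Agent.Lib_helper18.PENKF.DefsQ
import Pool.Agent.Lib_helper97.PENT.T4L
import Pool.Agent.Lib_helper18.PENMF.MA4
import Pool.Agent.Lib_helper18.PENMF.MB1
import Pool.Agent.Lib_helper18.PENMF.MB4
import Pool.Agent.Lib_helper18.PENMF.MB5
import Pool.Agent.Lib_helper18.PENMF.MA1

/-! Block MC2 (project PENT, part PENM; helper8; port of helper53's T4L) -/

set_option autoImplicit false

namespace Pool.Agent.PENM

open Finset Pool.Agent.PENT Pool.Agent.PATH.NC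

theorem mc2_cm_nn {g : ℕ → ℝ} (hg : ∀ l, 0 ≤ g l) (m : ℕ) : 0 ≤ cm g m := by
  rw [t4_cm_eq]
  exact Finset.prod_nonneg fun l _ => pow_nonneg (hg l) _

/-- the convolution bound for nonnegative weights -/
theorem mc2_conv {a b : ℕ → ℝ} (ha : ∀ l, 0 ≤ a l) (hb : ∀ l, 0 ≤ b l) (N : ℕ) (hN : N ≠ 0) :
    ∑ g ∈ N.divisors, cm a g * cm b (N / g) ≤ cm (fun l => a l + b l) N := by
  induction N using Nat.strong_induction_on with
  | _ N ih =>
    rcases Nat.eq_or_lt_of_le (Nat.one_le_iff_ne_zero.2 hN) with h1 | h1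
    · rw [← h1]
      simp [t4_cm_one]
    · set l := N.minFac with hl
      have hlp : l.Prime := Nat.minFac_prime h1.ne'
      obtain ⟨M, hM⟩ := N.minFac_dvd
      rw [← hl] at hM
      have hM0 : M ≠ 0 := by rintro rfl; rw [mul_zero] at hM; exact hN hM
      have hl0 : l ≠ 0 := hlp.ne_zero
      have hlt : M < N := by
        rw [hM]
        have := hlp.two_le
        have := Nat.pos_of_ne_zero hM0
        nlinarith
      have hI := ih M hlt hM0
      have hsub : N.divisors ⊆ M.divisors ∪ M.divisors.image (l * ·) := by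
        intro g hg
        rw [Nat.mem_divisors] at hg
        rw [Finset.mem_union, Finset.mem_image]
        by_cases hd : g ∣ M
        · left; exact Nat.mem_divisors.2 ⟨hd, hM0⟩
        · right
          have hlg : l ∣ g := by
            by_contra hcon
            have hc : Nat.Coprime g l := ((Nat.Prime.coprime_iff_not_dvd hlp).2 hcon).symm
            exact hd (hc.dvd_of_dvd_mul_left (hM ▸ hg.1))
          obtain ⟨g', rfl⟩ := hlg
          refine ⟨g', Nat.mem_divisors.2 ⟨?_, hM0⟩, rfl⟩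
          exact Nat.dvd_of_mul_dvd_mul_left (Nat.pos_of_ne_zero hl0) (hM ▸ hg.1)
      have hnn : ∀ g, 0 ≤ cm a g * cm b (N / g) := fun g =>
        mul_nonneg (mc2_cm_nn ha g) (mc2_cm_nn hb _)
      have e1 : ∑ g ∈ M.divisors, cm a g * cm b (N / g) =
          b l * ∑ g ∈ M.divisors, cm a g * cm b (M / g) := by
        rw [Finset.mul_sum]
        refine Finset.sum_congr rfl fun g hg => ?_
        have hgd := Nat.dvd_of_mem_divisors hg
        have hg0 : M / g ≠ 0 := by
          have := Nat.div_pos (Nat.le_of_dvd (Nat.pos_of_ne_zero hM0) hgd)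
            (Nat.pos_of_mem_divisors hg)
          omega
        rw [hM, Nat.mul_div_assoc _ hgd, t4_cm_mul b hl0 hg0, t4_cm_prime b hlp]
        ring
      have e2 : ∑ g ∈ M.divisors.image (l * ·), cm a g * cm b (N / g) =
          a l * ∑ g ∈ M.divisors, cm a g * cm b (M / g) := by
        rw [Finset.sum_image (by
          intro x _ y _ hxy
          exact Nat.eq_of_mul_eq_mul_left (Nat.pos_of_ne_zero hl0) hxy), Finset.mul_sum]
        refine Finset.sum_congr rfl fun g hg => ?_
        have hg0 : g ≠ 0 := (Nat.pos_of_mem_divisors hg).ne'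
        rw [hM, Nat.mul_div_mul_left _ _ (Nat.pos_of_ne_zero hl0), t4_cm_mul a hl0 hg0,
          t4_cm_prime a hlp]
        ring
      calc ∑ g ∈ N.divisors, cm a g * cm b (N / g)
          ≤ ∑ g ∈ M.divisors ∪ M.divisors.image (l * ·), cm a g * cm b (N / g) :=
            Finset.sum_le_sum_of_subset_of_nonneg hsub fun g _ _ => hnn g
        _ ≤ ∑ g ∈ M.divisors, cm a g * cm b (N / g) +
            ∑ g ∈ M.divisors.image (l * ·), cm a g * cm b (N / g) := by
            rw [← Finset.sum_union_inter]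
            have : 0 ≤ ∑ g ∈ M.divisors ∩ M.divisors.image (l * ·), cm a g * cm b (N / g) :=
              Finset.sum_nonneg fun g _ => hnn g
            linarith
        _ = (a l + b l) * ∑ g ∈ M.divisors, cm a g * cm b (M / g) := by rw [e1, e2]; ring
        _ ≤ (a l + b l) * cm (fun l => a l + b l) M :=
            mul_le_mul_of_nonneg_left hI (add_nonneg (ha l) (hb l))
        _ = cm (fun l => a l + b l) N := by
            rw [hM, t4_cm_mul _ hl0 hM0, t4_cm_prime _ hlp]

/-- an odd vertex: its value has no odd prime factor `≤ P` -/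
theorem mc2_odd {p : Prm 10} {C1 : ℝ} {X : ℕ} {s : (ℤ × ℤ × ℤ) × Vec 10} (h : TT p C1 X s)
    (i : Fin 11) (hi : ¬ Even i.val) (hv : fv s.1 (s.2 i) ≠ 0) {l : ℕ} (hl : l.Prime)
    (h2 : l ≠ 2) (hP : (l : ℝ) ≤ PP X) : ¬ l ∣ (fv s.1 (s.2 i)).natAbs := by
  intro hd
  have hgd : GD s.1 s.2 := h.gd
  have hi1 : 1 ≤ i.val := by
    rcases Nat.eq_zero_or_pos i.val with h0 | h0
    · exact absurd (by rw [h0]; exact Even.zero) hi
    · exact h0
  have hi9 : i.val ≤ 9 := by
    have := i.isLt
    rcases Nat.lt_or_ge i.val 10 with h0 | h0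
    · omega
    · have : i.val = 10 := by omega
      exact absurd (by rw [this]; decide) hi
  have hD1 : dE s.2 i.val ∣ (fv s.1 (s.2 i)).natAbs := by
    have := (hgd ⟨i.val - 1, by omega⟩).2
    have e1 : (⟨i.val - 1, by omega⟩ : Fin 10).val + 1 = i.val := by
      show i.val - 1 + 1 = i.val
      omega
    have e2 : (⟨i.val - 1, by omega⟩ : Fin 10).succ = i := by
      apply Fin.ext
      show i.val - 1 + 1 = i.val
      omega
    rw [e1, e2] at this
    exact Int.natCast_dvd.1 this
  have hD2 : dE s.2 (i.val + 1) ∣ (fv s.1 (s.2 i)).natAbs := by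
    have := (hgd ⟨i.val, by omega⟩).1
    have e2 : (⟨i.val, by omega⟩ : Fin 10).castSucc = i := by
      apply Fin.ext
      rfl
    rw [e2] at this
    exact Int.natCast_dvd.1 this
  have hcop := h.gp.cop i.val (i.val + 1) hi1 (Nat.lt_succ_self _) (by omega)
  have hDD : dE s.2 i.val * dE s.2 (i.val + 1) ∣ (fv s.1 (s.2 i)).natAbs :=
    hcop.mul_dvd_of_dvd_of_dvd hD1 hD2
  have hdp : ∀ e, 1 ≤ e → e ≤ 10 → ¬ l ∣ dE s.2 e := by
    intro e h1 h3 hle
    have := ((h.gp.dp e h1 h3).2 l hl hle).2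
    linarith
  have hl3 : l ∣ yv s.1 s.2 i := by
    unfold yv
    obtain ⟨t, ht⟩ := hDD
    have hpos : 0 < dE s.2 i.val * dE s.2 (i.val + 1) := by
      rcases Nat.eq_zero_or_pos (dE s.2 i.val * dE s.2 (i.val + 1)) with h0 | h0
      · rw [h0, zero_mul] at ht
        exact absurd (Int.natAbs_eq_zero.1 ht) hv
      · exact h0
    rw [ht, Nat.mul_div_cancel_left _ hpos]
    rw [ht] at hd
    rcases (Nat.Prime.dvd_mul hl).1 hd with h4 | h4
    · rcases (Nat.Prime.dvd_mul hl).1 h4 with h5 | h5
      · exact absurd h5 (hdp _ hi1 (by omega))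
      · exact absurd h5 (hdp _ (by omega) (by omega))
    · exact h4
  have hy0 : yv s.1 s.2 i ≠ 0 := by
    intro h0
    unfold yv at h0
    obtain ⟨t, ht⟩ := hDD
    have hpos : 0 < dE s.2 i.val * dE s.2 (i.val + 1) := by
      rcases Nat.eq_zero_or_pos (dE s.2 i.val * dE s.2 (i.val + 1)) with h0 | h0
      · rw [h0, zero_mul] at ht
        exact absurd (Int.natAbs_eq_zero.1 ht) hv
      · exact h0
    rw [ht, Nat.mul_div_cancel_left _ hpos] at h0
    rw [h0, mul_zero] at ht
    exact hv (Int.natAbs_eq_zero.1 ht)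
  apply h.w
  unfold W
  rw [if_pos hgd]
  have hyw : yw p X s.1 s.2 = 0 := by
    unfold yw
    apply Finset.prod_eq_zero (mem_univ i)
    rw [t4_cm_eq]
    apply Finset.prod_eq_zero (Nat.mem_primeFactors.2 ⟨hl, hl3, hy0⟩)
    have e : wyV 10 (PP X) (p.Y X) i.val l = 0 := by
      unfold wyV boV
      rw [if_neg h2, if_pos hP, if_neg hi]
    rw [e]
    exact zero_pow (hl.factorization_pos_of_dvd hy0 hl3).ne'
  rw [hyw, mul_zero]

theorem mc2_ws_pos {P Y s : ℝ} (hs : 0 < s) (l : ℕ) : 0 < ws P Y s l := by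
  unfold ws
  split_ifs
  · exact one_pos
  · exact one_pos
  · exact hs
  · exact one_pos

/-- BLOCK MC2 (uses MA4, MB1, MB4, MB5; port of helper53's block T4: Lib_helper97/PENT/T4L.lean): the weights of the
base forms over one `n`. A base is `(g, n, g')`, `g g' = n² + 1`, `0 < g, g', n` (MB5), `n ≤ C X`. One of the vertices
`j, j+1` is odd; `W ≠ 0` and `boV = 0` give: its value (`g` or `g'`) has no prime factor in `(2, P]`. So: `2`: at most
two possibilities, weight `1`; `l ≤ P`: one, weight `1`; `P < l ≤ Y`: `∑_{a+b=v} s_0^a s_1^b ≤ (s_0 + s_1)^v = 1`;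
`l > Y`: `v + 1 ≤ 2^v`, the sum of these `v` is at most `3/ta`. -/
theorem nu_sum_pr {p : Prm 10} {τ C1 : ℝ} (hp : p.Ok τ) (hτ : τ ≤ 1 / 1000) (hC1 : 1 ≤ C1) :
    ∃ C : ℝ, ∃ X₀ : ℕ, ∀ X ≥ X₀, ∀ j : Fin 11, j ≠ 10 → ∀ n : ℕ,
      ∑ y ∈ ((FT p C1 X).image (bT j)).filter (fun y => y.2.1.natAbs = n), nuM p X j y ≤ C := by
  have hc := hp.c10
  obtain ⟨⟨-, -, hta, -, -, -, -⟩, -⟩ := prm_nums hp hτ
  set C4 : ℝ := 1000 * C1 ^ 4 / p.c1 with hC4
  have hC4p : 0 < C4 := by positivity
  refine ⟨2 * (2:ℝ) ^ (3 / p.ta), ⌈C4 ^ 2⌉₊ + 2, fun X hX j hj n => ?_⟩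
  have hXR : C4 ^ 2 + 2 ≤ (X:ℝ) := by
    have h1 := Nat.le_ceil (C4 ^ 2)
    have h2 : ((⌈C4 ^ 2⌉₊ + 2 : ℕ) : ℝ) ≤ X := by exact_mod_cast hX
    push_cast at h2
    linarith
  have hC42 : 0 < C4 ^ 2 := by positivity
  have hX2 : (2:ℝ) ≤ X := by linarith
  have hX1 : 1 ≤ X := by
    have : (1 : ℝ) ≤ X := by linarith
    exact_mod_cast this
  have hlogX : 0 < Real.log X := Real.log_pos (by linarith)
  have hj9 : j.val ≤ 9 := by
    have := j.isLt
    rcases Nat.lt_or_ge j.val 10 with h0 | h0
    · omega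
    · exact absurd (Fin.ext (by show j.val = 10; omega)) hj
  obtain ⟨hs0, hs1, hss, -⟩ := WM_s j
  have hss := hss hj
  set S := ((FT p C1 X).image (bT j)).filter (fun y => y.2.1.natAbs = n) with hS
  rcases S.eq_empty_or_nonempty with he | ⟨y₀, hy₀⟩
  · rw [he, Finset.sum_empty]
    positivity
  · have hmem : ∀ y ∈ S, (0 < y.1 ∧ 0 < y.2.2 ∧ y.2.1 = n ∧ y.1.natAbs * y.2.2.natAbs = n ^ 2 + 1) ∧
        (n:ℝ) ≤ C4 * X ∧
        (¬ Even j.val → ∀ l : ℕ, l.Prime → l ≠ 2 → (l : ℝ) ≤ PP X → ¬ l ∣ y.1.natAbs) ∧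
        (Even j.val → ∀ l : ℕ, l.Prime → l ≠ 2 → (l : ℝ) ≤ PP X → ¬ l ∣ y.2.2.natAbs) := by
      intro y hy
      rw [hS, Finset.mem_filter, Finset.mem_image] at hy
      obtain ⟨⟨s, hs, rfl⟩, hn⟩ := hy
      have hTT := (mem_FT hc).1 hs
      obtain ⟨hov, hpos⟩ := over_of (δ := 1) hp hτ hC1 hX1 j hTT
      have hdisc := hov.disc
      have hg := hov.pos
      have hg' : 0 < (bT j s).2.2 := by
        by_contra hcon
        push Not at hcon
        nlinarith [sq_nonneg (bT j s).2.1, mul_nonneg hg.le (neg_nonneg.2 hcon)]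
      have hn' : (bT j s).2.1 = (n : ℤ) := by
        rw [← hn]
        exact (Int.natAbs_of_nonneg hpos.le).symm
      obtain ⟨m1, m2, m3, m4⟩ := RB_mul j hTT
      have r0 : rt j s.2 0 = s.2 j := by unfold rt; rw [zero_add]
      have r1 : rt j s.2 1 = s.2 (1 + j) := rfl
      have hval : (1 + j : Fin 11).val = j.val + 1 := by
        rw [Fin.val_add]
        show (1 + j.val) % 11 = j.val + 1
        omega
      refine ⟨⟨hg, hg', hn', ?_⟩, ?_, ?_, ?_⟩
      · have e1 : ((bT j s).1.natAbs : ℤ) = (bT j s).1 := Int.natAbs_of_nonneg hg.le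
        have e2 : ((bT j s).2.2.natAbs : ℤ) = (bT j s).2.2 := Int.natAbs_of_nonneg hg'.le
        zify
        rw [abs_of_pos hg, abs_of_pos hg']
        rw [hn'] at hdisc
        linarith
      · have h1 := hov.n1
        have h2 : ((bT j s).2.1 : ℝ) = (n : ℝ) := by rw [hn']; exact Int.cast_natCast n
        rw [h2] at h1
        have h3 : (qM p 1 C1 j).C4 = C4 := rfl
        rw [h3] at h1
        exact (le_abs_self _).trans h1
      · intro hev l hl h2 hP hd
        have hfv : fv s.1 (s.2 j) ≠ 0 := by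
          rw [← r0, ← m2]
          exact (mul_pos hg m1).ne'
        refine mc2_odd hTT j hev hfv hl h2 hP ?_
        have : (fv s.1 (s.2 j)).natAbs = (bT j s).1.natAbs *
            (|PENK.dl (rt j s.2) 0|).natAbs := by
          rw [← r0, ← m2, Int.natAbs_mul]
          rfl
        rw [this]
        exact hd.mul_right _
      · intro hev l hl h2 hP hd
        have hfv : fv s.1 (s.2 (1 + j)) ≠ 0 := by
          rw [← r1, ← m4]
          exact (mul_pos hg' m1).ne'
        refine mc2_odd hTT (1 + j) (by rw [hval]; exact Nat.not_even_iff_odd.2 hev.add_one)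
          hfv hl h2 hP ?_
        have : (fv s.1 (s.2 (1 + j))).natAbs = (bT j s).2.2.natAbs *
            (|PENK.dl (rt j s.2) 0|).natAbs := by
          rw [← r1, ← m4, Int.natAbs_mul]
          rfl
        rw [this]
        exact hd.mul_right _
    have hnX := (hmem y₀ hy₀).2.1
    set N := n ^ 2 + 1 with hN
    have hN0 : N ≠ 0 := Nat.succ_ne_zero _
    have hNX : (N:ℝ) ≤ (X:ℝ) ^ 3 := by
      rw [hN]
      push_cast
      have h1 : (n:ℝ) ^ 2 ≤ (C4 * X) ^ 2 := pow_le_pow_left₀ (Nat.cast_nonneg n) hnX 2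
      have h2 : (C4 * (X:ℝ)) ^ 2 = C4 ^ 2 * (X:ℝ) ^ 2 := by
        rw [mul_pow]
      have h3 : (C4 ^ 2 + 1) * (X:ℝ) ^ 2 ≤ (X:ℝ) ^ 3 := by
        calc (C4 ^ 2 + 1) * (X:ℝ) ^ 2 ≤ X * (X:ℝ) ^ 2 := by gcongr; linarith
          _ = (X:ℝ) ^ 3 := by ring
      have h4 : (1:ℝ) ≤ (X:ℝ) ^ 2 := one_le_pow₀ (by linarith)
      linarith
    set s0 := (WM j).s0 with hs0d
    set s1 := (WM j).s1 with hs1d
    set a : ℕ → ℝ := fun l => if ¬ Even j.val ∧ l ≠ 2 ∧ (l : ℝ) ≤ PP X then 0
      else ws (PP X) (p.Y X) s0 l with ha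
    set b : ℕ → ℝ := fun l => if Even j.val ∧ l ≠ 2 ∧ (l : ℝ) ≤ PP X then 0
      else ws (PP X) (p.Y X) s1 l with hb
    have hann : ∀ l, 0 ≤ a l := by
      intro l
      simp only [ha]
      split_ifs
      · exact le_rfl
      · exact (mc2_ws_pos hs0.1 l).le
    have hbnn : ∀ l, 0 ≤ b l := by
      intro l
      simp only [hb]
      split_ifs
      · exact le_rfl
      · exact (mc2_ws_pos hs1.1 l).le
    -- to divisors
    have hsum : ∑ y ∈ S, nuM p X j y ≤ ∑ g ∈ N.divisors, cm a g * cm b (N / g) := by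
      have hinj : Set.InjOn (fun y : ℤ × ℤ × ℤ => y.1.natAbs) S := by
        intro y hy y' hy' hyy
        obtain ⟨⟨a1, a2, a3, a4⟩, -⟩ := hmem y hy
        obtain ⟨⟨b1, b2, b3, b4⟩, -⟩ := hmem y' hy'
        have hyy : y.1.natAbs = y'.1.natAbs := hyy
        have hy1 : y.1 = y'.1 := by
          rw [← Int.natAbs_of_nonneg a1.le, ← Int.natAbs_of_nonneg b1.le, hyy]
        have h5 : y.2.2.natAbs = y'.2.2.natAbs := by
          rw [← hyy] at b4
          exact Nat.eq_of_mul_eq_mul_left (Int.natAbs_pos.2 a1.ne') (a4.trans b4.symm)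
        have : y.2.2 = y'.2.2 := by
          rw [← Int.natAbs_of_nonneg a2.le, ← Int.natAbs_of_nonneg b2.le, h5]
        exact Prod.ext hy1 (Prod.ext (a3.trans b3.symm) this)
      have e1 : ∑ y ∈ S, nuM p X j y =
          ∑ g ∈ S.image (fun y => y.1.natAbs), cm a g * cm b (N / g) := by
        rw [Finset.sum_image hinj]
        refine Finset.sum_congr rfl fun y hy => ?_
        obtain ⟨⟨a1, a2, a3, a4⟩, -, c1, c2⟩ := hmem y hy
        have hy1 : 0 < y.1.natAbs := Int.natAbs_pos.2 a1.ne'
        have e2 : N / y.1.natAbs = y.2.2.natAbs := by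
          rw [← a4, Nat.mul_div_cancel_left _ hy1]
        rw [e2]
        unfold nuM
        congr 1
        · rw [t4_cm_eq, t4_cm_eq]
          refine Finset.prod_congr rfl fun l hl => ?_
          have hl' := Nat.mem_primeFactors.1 hl
          have : a l = ws (PP X) (p.Y X) s0 l := by
            simp only [ha]
            rw [if_neg]
            rintro ⟨h3, h4, h5⟩
            exact c1 h3 l hl'.1 h4 h5 hl'.2.1
          rw [this]
        · rw [t4_cm_eq, t4_cm_eq]
          refine Finset.prod_congr rfl fun l hl => ?_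
          have hl' := Nat.mem_primeFactors.1 hl
          have : b l = ws (PP X) (p.Y X) s1 l := by
            simp only [hb]
            rw [if_neg]
            rintro ⟨h3, h4, h5⟩
            exact c2 h3 l hl'.1 h4 h5 hl'.2.1
          rw [this]
      rw [e1]
      refine Finset.sum_le_sum_of_subset_of_nonneg ?_ fun g _ _ =>
        mul_nonneg (mc2_cm_nn hann _) (mc2_cm_nn hbnn _)
      intro g hg
      obtain ⟨y, hy, rfl⟩ := Finset.mem_image.1 hg
      exact Nat.mem_divisors.2 ⟨⟨y.2.2.natAbs, (hmem y hy).1.2.2.2.symm⟩, hN0⟩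
    refine hsum.trans ((mc2_conv hann hbnn N hN0).trans ?_)
    set c : ℝ := Real.log 2 / (p.ta * Real.log X) with hcd
    have hlog2 : 0 < Real.log 2 := Real.log_pos (by norm_num)
    have hc0 : 0 < c := by positivity
    have hle : cm (fun l => a l + b l) N ≤
        cm (fun l => (if l = 2 then (2:ℝ) else 1) * (l:ℝ) ^ c) N := by
      refine t4_cm_le (fun l => add_nonneg (hann l) (hbnn l)) N ?_
      intro l hl
      have hl1 : (1:ℝ) ≤ (l:ℝ) := by exact_mod_cast hl.one_lt.le
      have hlc : (1:ℝ) ≤ (l:ℝ) ^ c := Real.one_le_rpow hl1 hc0.le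
      by_cases h2 : l = 2
      · have e1 : a l = 1 := by
          simp only [ha]
          rw [if_neg (fun hh => hh.2.1 h2)]
          unfold ws
          rw [if_pos h2]
        have e2 : b l = 1 := by
          simp only [hb]
          rw [if_neg (fun hh => hh.2.1 h2)]
          unfold ws
          rw [if_pos h2]
        rw [e1, e2, if_pos h2]
        linarith
      · rw [if_neg h2, one_mul]
        by_cases hP : (l : ℝ) ≤ PP X
        · have e0 : ∀ s : ℝ, ws (PP X) (p.Y X) s l = 1 := by
            intro s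
            unfold ws
            rw [if_neg h2, if_pos hP]
          by_cases hev : Even j.val
          · have e1 : a l = 1 := by
              simp only [ha]
              rw [if_neg (fun hh => hh.1 hev), e0]
            have e2 : b l = 0 := by
              simp only [hb]
              rw [if_pos ⟨hev, h2, hP⟩]
            rw [e1, e2]
            linarith
          · have e1 : a l = 0 := by
              simp only [ha]
              rw [if_pos ⟨hev, h2, hP⟩]
            have e2 : b l = 1 := by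
              simp only [hb]
              rw [if_neg (fun hh => hev hh.1), e0]
            rw [e1, e2]
            linarith
        · have e1 : a l = ws (PP X) (p.Y X) s0 l := by
            simp only [ha]
            rw [if_neg (fun hh => hP hh.2.2)]
          have e2 : b l = ws (PP X) (p.Y X) s1 l := by
            simp only [hb]
            rw [if_neg (fun hh => hP hh.2.2)]
          rw [e1, e2]
          unfold ws
          rw [if_neg h2, if_neg hP, if_neg h2, if_neg hP]
          by_cases hY : (l:ℝ) ≤ p.Y X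
          · rw [if_pos hY, if_pos hY]
            linarith
          · rw [if_neg hY, if_neg hY]
            push Not at hY
            have e1 : (p.Y X) ^ c = 2 := by
              rw [Prm.Y, ← Real.rpow_mul (by linarith), hcd]
              have e2 : p.ta * (Real.log 2 / (p.ta * Real.log X)) =
                  Real.log 2 / Real.log X := by
                field_simp
              rw [e2, Real.rpow_def_of_pos (by linarith), mul_div_cancel₀ _ hlogX.ne',
                Real.exp_log (by norm_num)]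
            have e3 : (p.Y X) ^ c ≤ (l:ℝ) ^ c :=
              Real.rpow_le_rpow (Real.rpow_nonneg (by linarith) _) hY.le hc0.le
            linarith
    refine hle.trans ?_
    rw [t4_cm_fmul, t4_cm_two, t4_cm_rpow c hN0]
    have f1 : (2:ℝ) ^ N.factorization 2 ≤ 2 := by
      calc (2:ℝ) ^ N.factorization 2 ≤ 2 ^ 1 := pow_le_pow_right₀ (by norm_num) (t4_v2 n)
        _ = 2 := by norm_num
    have f2 : (N:ℝ) ^ c ≤ (2:ℝ) ^ (3 / p.ta) := by
      calc (N:ℝ) ^ c ≤ ((X:ℝ) ^ 3) ^ c := Real.rpow_le_rpow (Nat.cast_nonneg N) hNX hc0.le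
        _ = (2:ℝ) ^ (3 / p.ta) := by
          rw [← Real.rpow_natCast, ← Real.rpow_mul (by linarith), Real.rpow_def_of_pos (by linarith),
            Real.rpow_def_of_pos (by norm_num), hcd]
          congr 1
          push_cast
          field_simp
    exact mul_le_mul f1 f2 (by positivity) (by norm_num)

end Pool.Agent.PENM

namespace Pool.Agent.PENM

open Finset Pool.Agent.PENT Pool.Agent.PATH.NC

theorem nu_sum : type_of% @nu_sum_pr := @nu_sum_pr

end Pool.Agent.PENM
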