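import Pool.Agent.Lib_helper18.PENM.Defs
import Pool.Agent.Lib_helper18.PENKF.DefsQ

set_option autoImplicit false

namespace Pool.Agent.PENM

open Finset Pool.Agent.PENT Pool.Agent.PATH.NC

theorem scales_pr {t : ℝ} (ht : 0 < t) : ∃ X₀ : ℕ, 2 ≤ X₀ ∧ ∀ X ≥ X₀,
    Real.log X ^ 200 ≤ (⌊PP X⌋₊ : ℝ) ∧
      (⌊PP X⌋₊ : ℝ) ≤ Real.exp (Real.log X ^ (1 / 2 : ℝ)) ∧ ⌊PP X⌋₊ ≤ ⌊(X : ℝ) ^ t⌋₊ ∧
      (X : ℝ) ^ (t / 2) ≤ (⌊(X : ℝ) ^ t⌋₊ : ℝ) ∧ (⌊(X : ℝ) ^ t⌋₊ : ℝ) ≤ (X : ℝ) ^ t := by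
  -- L = log X tends to infinity, s = L ^ (1/100)
  have hL : Filter.Tendsto (fun X : ℕ => Real.log (X : ℝ)) Filter.atTop Filter.atTop :=
    Real.tendsto_log_atTop.comp tendsto_natCast_atTop_atTop
  have hs : Filter.Tendsto (fun X : ℕ => Real.log (X : ℝ) ^ (1 / 100 : ℝ)) Filter.atTop
      Filter.atTop := (tendsto_rpow_atTop (by norm_num)).comp hL
  have h1 : ∀ᶠ X : ℕ in Filter.atTop, (2 : ℝ) ≤
      Real.exp (Real.log (X : ℝ) ^ (1 / 100 : ℝ)) / (Real.log (X : ℝ) ^ (1 / 100 : ℝ)) ^ 20000 :=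
    ((Real.tendsto_exp_div_pow_atTop 20000).comp hs).eventually_ge_atTop 2
  have h2 : ∀ᶠ X : ℕ in Filter.atTop, max 1 (1 / t) ≤ Real.log (X : ℝ) ^ (1 / 100 : ℝ) :=
    hs.eventually_ge_atTop _
  have h3 : ∀ᶠ X : ℕ in Filter.atTop, (2 : ℝ) ≤ (X : ℝ) ^ (t / 2) :=
    ((tendsto_rpow_atTop (show 0 < t / 2 by positivity)).comp
      tendsto_natCast_atTop_atTop).eventually_ge_atTop 2
  obtain ⟨X₀, hX₀⟩ := Filter.eventually_atTop.mp
    ((h1.and (h2.and h3)).and (Filter.eventually_ge_atTop 2))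
  refine ⟨max X₀ 2, le_max_right _ _, fun X hX => ?_⟩
  obtain ⟨⟨e1, e2, e3⟩, e4⟩ := hX₀ X (le_trans (le_max_left _ _) hX)
  have hXr : (2 : ℝ) ≤ X := by exact_mod_cast e4
  have hX0 : (0 : ℝ) < X := by linarith
  set L := Real.log (X : ℝ) with hLdef
  have hLpos : 0 < L := Real.log_pos (by linarith)
  set s := L ^ (1 / 100 : ℝ) with hsdef
  have hs1 : 1 ≤ s := le_trans (le_max_left _ _) e2
  have hs2 : 1 / t ≤ s := le_trans (le_max_right _ _) e2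
  have hs0 : 0 < s := by linarith
  have hsL : s ^ 100 = L := by
    rw [hsdef, ← Real.rpow_natCast, ← Real.rpow_mul hLpos.le]
    norm_num
  have hL1 : 1 ≤ L := by
    rw [← hsL]
    exact one_le_pow₀ hs1
  have hPP : PP X = Real.exp s := rfl
  have hL60 : L ^ 200 = s ^ 20000 := by
    rw [← hsL, ← pow_mul]
  have hexp : L ^ 200 + 1 ≤ Real.exp s := by
    rw [le_div_iff₀ (by positivity)] at e1
    have h5 : (1 : ℝ) ≤ s ^ 20000 := one_le_pow₀ hs1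
    rw [hL60]
    linarith
  have hXt : (X : ℝ) ^ t = Real.exp (L * t) := by
    rw [Real.rpow_def_of_pos hX0]
  have hst : s ≤ L * t := by
    rw [← hsL]
    have h6 : (1 : ℝ) ≤ s ^ 98 := one_le_pow₀ hs1
    have h7 : 1 ≤ s * t := by
      rw [div_le_iff₀ ht] at hs2
      exact hs2
    calc s = s * 1 * 1 := by ring
      _ ≤ s * s ^ 98 * (s * t) := by
          apply mul_le_mul _ h7 (by norm_num) (by positivity)
          exact mul_le_mul_of_nonneg_left h6 hs0.le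
      _ = s ^ 100 * t := by ring
  have hPX : PP X ≤ (X : ℝ) ^ t := by
    rw [hPP, hXt]
    exact Real.exp_le_exp.mpr hst
  have hXt0 : 0 ≤ (X : ℝ) ^ t := by positivity
  have hPP0 : 0 ≤ PP X := by
    rw [hPP]
    exact (Real.exp_pos s).le
  refine ⟨?_, ?_, Nat.floor_le_floor hPX, ?_, Nat.floor_le hXt0⟩
  · have h8 : PP X < (⌊PP X⌋₊ : ℝ) + 1 := Nat.lt_floor_add_one _
    rw [hPP] at h8 ⊢
    linarith
  · refine le_trans (Nat.floor_le hPP0) ?_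
    rw [hPP]
    refine Real.exp_le_exp.mpr ?_
    rw [hsdef]
    exact Real.rpow_le_rpow_of_exponent_le hL1 (by norm_num)
  · have h9 : (X : ℝ) ^ t < (⌊(X : ℝ) ^ t⌋₊ : ℝ) + 1 := Nat.lt_floor_add_one _
    have h10 : (X : ℝ) ^ t = (X : ℝ) ^ (t / 2) * (X : ℝ) ^ (t / 2) := by
      rw [← Real.rpow_add hX0]
      congr 1
      ring
    nlinarith [e3]

end Pool.Agent.PENM

namespace Pool.Agent.PENM

open Finset Pool.Agent.PENT Pool.Agent.PATH.NC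

theorem scales : type_of% @scales_pr := @scales_pr

end Pool.Agent.PENM
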