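import Pool.Agent.Lib_helper18.PENKF.U11
import Pool.Agent.Lib_helper18.PENMF.MA1
import Pool.Agent.Lib_helper18.PENMF.MA2
import Pool.Agent.Lib_helper18.PENMF.MA3
import Pool.Agent.Lib_helper18.PENMF.MA4
import Pool.Agent.Lib_helper18.PENMF.MB1
import Pool.Agent.Lib_helper18.PENMF.MB2
import Pool.Agent.Lib_helper18.PENMF.MB3
import Pool.Agent.Lib_helper18.PENMF.MB4
import Pool.Agent.Lib_helper18.PENMF.MB5
import Pool.Agent.Lib_helper18.PENMF.MC1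
import Pool.Agent.Lib_helper18.PENMF.MC2
import Pool.Agent.Lib_helper18.PENMF.MC3
import Pool.Agent.Lib_helper18.PENMF.MC4
import Pool.Agent.Lib_helper96.PNI.L.QF1
import Pool.Agent.Lib_helper96.PNI.L.QF3

/-!
# PENM: the classes of pairs of paths over one base (helper18)
-/

set_option autoImplicit false

namespace Pool.Agent.PENM

open Finset Pool.Agent.PENT Pool.Agent.PATH.NC

/-- the admissible parameters -/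
structure PO (p : Prm 10) (δ τ : ℝ) : Prop where
  ok : p.Ok τ
  d0 : 0 < δ
  d1 : δ ≤ 1 / 10
  t1 : τ ≤ δ / 60000
  t2 : τ ≤ δ / (4 * (PENK.kU + 1))
  eq : PENK.EQQ δ

theorem PO.small {p : Prm 10} {δ τ : ℝ} (h : PO p δ τ) : τ ≤ 1 / 1000 := by
  have := h.t1
  have := h.d1
  linarith

theorem PO.kap {p : Prm 10} {δ τ : ℝ} (h : PO p δ τ) : 0 < 50 * p.ew ∧ 50 * p.ew ≤ 1 / 10 := by
  obtain ⟨⟨a1, a2, a3, a4, a5, a6, a7⟩, b, c, -⟩ := prm_nums h.ok h.small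
  have := c 3 (by decide) (by decide)
  constructor
  · linarith
  · linarith [this.1, this.2]

theorem PO.ta {p : Prm 10} {δ τ : ℝ} (h : PO p δ τ) :
    0 < p.ta ∧ p.ta ≤ δ / (4 * (PENK.kU + 1)) := by
  obtain ⟨⟨a1, a2, a3, a4, a5, a6, a7⟩, b, c, -⟩ := prm_nums h.ok h.small
  refine ⟨a3, ?_⟩
  have h1 := h.ok.ta_ep
  have h2 := h.ok.ep1
  have h3 := h.t2
  have h4 : 0 < τ := lt_of_lt_of_le h.ok.c10 h.ok.c11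
  have h5 : τ * p.ep ≤ τ * 1 := mul_le_mul_of_nonneg_left (by linarith) h4.le
  linarith

/-- the levels -/
theorem lev {p : Prm 10} {δ τ : ℝ} (h : PO p δ τ) : ∃ X₀ : ℕ, 3 ≤ X₀ ∧ ∀ X ≥ X₀,
    1 ≤ Real.log X ∧ Real.log X ^ 60 ≤ (⌊PP X⌋₊ : ℝ) ∧ Real.log X ^ 200 ≤ (⌊PP X⌋₊ : ℝ) ∧
      (⌊PP X⌋₊ : ℝ) ≤ Real.exp (Real.log X ^ (1 / 2 : ℝ)) ∧ ⌊PP X⌋₊ ≤ ⌊p.Y X⌋₊ ∧
      (X : ℝ) ^ (p.ta / 2) ≤ (⌊p.Y X⌋₊ : ℝ) ∧
      (⌊p.Y X⌋₊ : ℝ) ≤ (X : ℝ) ^ (δ / (4 * (PENK.kU + 1))) ∧ 2 ≤ ⌊PP X⌋₊ := by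
  obtain ⟨X₁, hX₁, H⟩ := scales (t := p.ta) h.ta.1
  have hlim : ∀ᶠ X : ℝ in Filter.atTop, 2 ≤ Real.log X :=
    Real.tendsto_log_atTop.eventually_ge_atTop 2
  obtain ⟨x₂, H2⟩ := Filter.eventually_atTop.1 hlim
  refine ⟨max 3 (max X₁ ⌈x₂⌉₊), le_max_left _ _, ?_⟩
  intro X hX
  have h3 : 3 ≤ X := (le_max_left _ _).trans hX
  have h1 : X₁ ≤ X := ((le_max_left _ _).trans (le_max_right _ _)).trans hX
  have h2 : x₂ ≤ (X : ℝ) := (Nat.le_ceil _).trans (by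
    exact_mod_cast ((le_max_right _ _).trans (le_max_right _ _)).trans hX)
  have hL := H2 X h2
  obtain ⟨a1, a2, a3, a4, a5⟩ := H X h1
  have hX1 : (1 : ℝ) ≤ X := by
    have : (3 : ℝ) ≤ X := by exact_mod_cast h3
    linarith
  have b1 : Real.log X ^ 60 ≤ Real.log X ^ 200 := pow_le_pow_right₀ (by linarith) (by norm_num)
  refine ⟨by linarith, b1.trans a1, a1, a2, a3, a4, a5.trans ?_, ?_⟩
  · exact Real.rpow_le_rpow_of_exponent_le hX1 h.ta.2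
  · have b2 : Real.log X ^ 1 ≤ Real.log X ^ 200 := pow_le_pow_right₀ (by linarith) (by norm_num)
    have b3 : (2 : ℝ) ≤ (⌊PP X⌋₊ : ℝ) := by
      rw [pow_one] at b2
      linarith
    exact_mod_cast b3

/-- the generic pairs -/
theorem gen_M {p : Prm 10} {δ τ C1 : ℝ} (h : PO p δ τ) (hC1 : 1 ≤ C1) (j : Fin 11) :
    ∃ C : ℝ, 0 ≤ C ∧ ∃ X₀ : ℕ, ∀ X ≥ X₀, ∀ s : Finset ((ℤ × ℤ × ℤ) × Vec 10), s ⊆ FT p C1 X →
      prs2 p X j s (fun σ σ' => GM2 j σ σ' = 1) ≤ C * X * Real.log X ^ (-12 : ℝ) := by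
  have hq := qM_ok h.d0 h.d1 hC1 h.ok h.t1 j
  obtain ⟨C, x₀, hC, hx₀, H⟩ := PENK.gen11_u (qM p δ C1 j) hq h.kap.1 h.kap.2 (mM j) (WM j)
    (WM_bal j) h.eq (p.ta / 2) (half_pos h.ta.1)
  obtain ⟨X₁, H1⟩ := pairs_le (δ := δ) h.ok h.small hC1
  obtain ⟨X₂, hX₂, H2⟩ := lev h
  refine ⟨C, hC, max ⌈x₀⌉₊ (max X₁ X₂), ?_⟩
  intro X hX s hs
  have y0 : x₀ ≤ (X : ℝ) := (Nat.le_ceil _).trans (by exact_mod_cast (le_max_left _ _).trans hX)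
  have y1 : X₁ ≤ X := ((le_max_left _ _).trans (le_max_right _ _)).trans hX
  have y2 : X₂ ≤ X := ((le_max_right _ _).trans (le_max_right _ _)).trans hX
  obtain ⟨a0, a1, a2, a3, a4, a5, a6, a7⟩ := H2 X y2
  obtain ⟨S, hS, hle⟩ := H1 X y1 j s hs (fun σ σ' => GM2 j σ σ' = 1)
  refine hle.trans ?_
  have K := H X y0 ⌊PP X⌋₊ ⌊p.Y X⌋₊ a1 a3 a5 a6 S (fun t ht => by
    obtain ⟨b1, σ, hσ, σ', hσ', b2, b3, b4, b5, b6⟩ := hS t ht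
    refine ⟨b1, ?_⟩
    rw [← b5, ← b6]
    exact b2)
  rw [WM_exp j] at K
  exact K

/-- the pairs with few coincidences -/
theorem small_M {p : Prm 10} {δ τ C1 : ℝ} (h : PO p δ τ) (hC1 : 1 ≤ C1) (j : Fin 11) :
    ∃ X₀ : ℕ, ∀ X ≥ X₀, ∀ s : Finset ((ℤ × ℤ × ℤ) × Vec 10), s ⊆ FT p C1 X →
      prs2 p X j s (fun σ σ' => 1 < GM2 j σ σ' ∧ (GM2 j σ σ' : ℝ) ≤ (X : ℝ) ^ (50 * p.ew / 8)) ≤
        X * Real.log X ^ (-110 : ℝ) := by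
  have hq := qM_ok h.d0 h.d1 hC1 h.ok h.t1 j
  obtain ⟨x₀, hx₀, H⟩ := PENK.small11_u (qM p δ C1 j) hq h.kap.1 h.kap.2 (mM j) (WM j)
    (WM_bal j) h.eq (p.ta / 2) (half_pos h.ta.1)
  obtain ⟨X₁, H1⟩ := pairs_le (δ := δ) h.ok h.small hC1
  obtain ⟨X₂, hX₂, H2⟩ := lev h
  refine ⟨max ⌈x₀⌉₊ (max X₁ X₂), ?_⟩
  intro X hX s hs
  have y0 : x₀ ≤ (X : ℝ) := (Nat.le_ceil _).trans (by exact_mod_cast (le_max_left _ _).trans hX)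
  have y1 : X₁ ≤ X := ((le_max_left _ _).trans (le_max_right _ _)).trans hX
  have y2 : X₂ ≤ X := ((le_max_right _ _).trans (le_max_right _ _)).trans hX
  obtain ⟨a0, a1, a2, a3, a4, a5, a6, a7⟩ := H2 X y2
  obtain ⟨S, hS, hle⟩ := H1 X y1 j s hs
    (fun σ σ' => 1 < GM2 j σ σ' ∧ (GM2 j σ σ' : ℝ) ≤ (X : ℝ) ^ (50 * p.ew / 8))
  refine hle.trans ?_
  exact H X y0 ⌊PP X⌋₊ ⌊p.Y X⌋₊ a2 a4 a5 a6 S (fun t ht => by
    obtain ⟨b1, σ, hσ, σ', hσ', b2, b3, b4, b5, b6⟩ := hS t ht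
    refine ⟨b1, ?_⟩
    rw [← b5, ← b6]
    exact b2)

/-- base `P`: a common prime on different lines -/
theorem diff_M {p : Prm 10} {δ τ C1 : ℝ} (h : PO p δ τ) (hC1 : 1 ≤ C1) :
    ∃ X₀ : ℕ, ∀ X ≥ X₀, ∀ s : Finset ((ℤ × ℤ × ℤ) × Vec 10), s ⊆ FT p C1 X →
      prs2 p X 10 s (fun σ σ' => GM2 10 σ σ' = 1 ∧ (1 < Nat.gcd (Dint σ.2) (Dall σ'.2) ∨
        1 < Nat.gcd (Dall σ.2) (Dint σ'.2))) ≤ X * Real.log X ^ (-110 : ℝ) := by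
  have hq := qM_ok h.d0 h.d1 hC1 h.ok h.t1 10
  have hm : mM 10 = 0 := by decide
  have hW := WM_bal 10
  rw [hm] at hW
  obtain ⟨x₀, hx₀, H⟩ := PENK.negN_u (qM p δ C1 10) hq h.kap.1 h.kap.2 (WM 10)
    hW h.eq (p.ta / 2) (half_pos h.ta.1)
  obtain ⟨X₁, H1⟩ := pairs_le (δ := δ) h.ok h.small hC1
  obtain ⟨X₂, hX₂, H2⟩ := lev h
  refine ⟨max ⌈x₀⌉₊ (max X₁ X₂), ?_⟩
  intro X hX s hs
  have y0 : x₀ ≤ (X : ℝ) := (Nat.le_ceil _).trans (by exact_mod_cast (le_max_left _ _).trans hX)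
  have y1 : X₁ ≤ X := ((le_max_left _ _).trans (le_max_right _ _)).trans hX
  have y2 : X₂ ≤ X := ((le_max_right _ _).trans (le_max_right _ _)).trans hX
  obtain ⟨a0, a1, a2, a3, a4, a5, a6, a7⟩ := H2 X y2
  obtain ⟨S, hS, hle⟩ := H1 X y1 10 s hs
    (fun σ σ' => GM2 10 σ σ' = 1 ∧ (1 < Nat.gcd (Dint σ.2) (Dall σ'.2) ∨
        1 < Nat.gcd (Dall σ.2) (Dint σ'.2)))
  rw [hm] at hS
  refine hle.trans ?_
  exact H X y0 ⌊PP X⌋₊ ⌊p.Y X⌋₊ a2 a4 a5 a6 S (fun t ht => by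
    obtain ⟨b1, σ, hσ, σ', hσ', b2, b3, b4, b5, b6⟩ := hS t ht
    refine ⟨b1, ?_⟩
    have hc := h.ok.c10
    have g1 := ((mem_FT hc).1 (hs hσ)).gp
    have g2 := ((mem_FT hc).1 (hs hσ')).gp
    rw [← b5, ← b6, bad_rt g1, bad_rt g2, DD_rt g1, DD_rt g2]
    exact b2)

end Pool.Agent.PENM
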