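import Pool.Agent.Lib_helper18.PENMF.Cls

/-!
# PENM: the near-diagonal pairs of paths over one base (helper18; from helper96's `near_sum`)
-/

set_option autoImplicit false

namespace Pool.Agent.PENM

open Finset Pool.Agent.PENT Pool.Agent.PATH.NC

/-- the inverse rotation -/
def unrot (j : Fin 11) (v : PENK.PolyK 11) : PENK.PolyK 11 := fun i => v (i - j)

theorem unrot_rt (j : Fin 11) (u : Vec 10) : unrot j (rt j u) = rt 0 u := by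
  funext i
  simp [unrot, rt]

theorem rot_unrot (j : Fin 11) (v : PENK.PolyK 11) : PNI.rot j (unrot j v) = v := by
  funext i
  simp [unrot, PNI.rot]

theorem DD_rot0 {p : Prm 10} {X : ℕ} {u : Vec 10} (h : GP p X u) (j : Fin 11) :
    PENK.DD (rt j u) = PENK.DD (rt 0 u) := by
  rw [DD_rt h, DD_rt h]

/-- the abstract form: all members satisfy `IsPt qq` -/
theorem large_aux {p : Prm 10} {δ τ C1 : ℝ} (h : PO p δ τ) (hC1 : 1 ≤ C1) (j : Fin 11)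
    (qq : PNI.Prm) (hq : qq.Ok) (h8 : qq.E8) (hb : j = 10 ∨ qq.Nar) (hε : qq.ε = 50 * p.ew) :
    ∃ X₀ : ℕ, ∀ X ≥ X₀, ∀ s : Finset ((ℤ × ℤ × ℤ) × Vec 10), s ⊆ FT p C1 X →
      (∀ σ ∈ s, PNI.IsPt qq X (rt 0 σ.2)) →
      prs2 p X j s (fun σ σ' => (X : ℝ) ^ (50 * p.ew / 8) < (GM2 j σ σ' : ℝ) ∧ σ' ≠ σ) ≤
        X * Real.log X ^ (-110 : ℝ) := by
  classical
  have hq' := qM_ok h.d0 h.d1 hC1 h.ok h.t1 j
  obtain ⟨c, x₁, hc, hx₁, Hn⟩ := PNI.near_sum hq h8 j hb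
  obtain ⟨x₀, hx₀, H⟩ := PENK.large_u (qM p δ C1 j) hq' (κ := 50 * p.ew) (mM j) (WM j)
    (WM_bal j) h.eq hc
  obtain ⟨X₁, H1⟩ := pairs_le (δ := δ) h.ok h.small hC1
  obtain ⟨X₂, hX₂, H2⟩ := lev h
  refine ⟨max (max ⌈x₀⌉₊ ⌈x₁⌉₊) (max X₁ X₂), ?_⟩
  intro X hX s hs hpt
  have y0 : x₀ ≤ (X : ℝ) := (Nat.le_ceil _).trans (by
    exact_mod_cast ((le_max_left _ _).trans (le_max_left _ _)).trans hX)
  have y0' : x₁ ≤ (X : ℝ) := (Nat.le_ceil _).trans (by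
    exact_mod_cast ((le_max_right _ _).trans (le_max_left _ _)).trans hX)
  have y1 : X₁ ≤ X := ((le_max_left _ _).trans (le_max_right _ _)).trans hX
  have y2 : X₂ ≤ X := ((le_max_right _ _).trans (le_max_right _ _)).trans hX
  obtain ⟨a0, a1, a2, a3, a4, a5, a6, a7⟩ := H2 X y2
  obtain ⟨S, hS, hle⟩ := H1 X y1 j s hs
    (fun σ σ' => (X : ℝ) ^ (50 * p.ew / 8) < (GM2 j σ σ' : ℝ) ∧ σ' ≠ σ)
  refine hle.trans ?_
  refine H X y0 ⌊PP X⌋₊ ⌊p.Y X⌋₊ a7 (by omega) a6 S (fun t ht => (hS t ht).1) ?_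
  set I := S.image (fun t => t.2) with hI
  -- back to natural indices
  set S' := I.image (fun t => (unrot j t.1, unrot j t.2)) with hS'
  have hinj : Set.InjOn (fun t : PENK.PolyK 11 × PENK.PolyK 11 => (unrot j t.1, unrot j t.2))
      (I : Set (PENK.PolyK 11 × PENK.PolyK 11)) := by
    rintro ⟨a, b⟩ _ ⟨a', b'⟩ _ he
    simp only [Prod.mk.injEq] at he
    have e1 := congrArg (PNI.rot j) he.1
    have e2 := congrArg (PNI.rot j) he.2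
    rw [rot_unrot, rot_unrot] at e1 e2
    rw [e1, e2]
  have hdata : ∀ t ∈ I, ∃ σ ∈ s, ∃ σ' ∈ s, rt j σ.2 = t.1 ∧ rt j σ'.2 = t.2 ∧
      (X : ℝ) ^ (50 * p.ew / 8) < (GM2 j σ σ' : ℝ) ∧ rt 0 σ.2 ≠ rt 0 σ'.2 := by
    intro t ht
    obtain ⟨t0, ht0, rfl⟩ := Finset.mem_image.1 ht
    obtain ⟨b1, σ, hσ, σ', hσ', b2, b3, b4, b5, b6⟩ := hS t0 ht0
    refine ⟨σ, hσ, σ', hσ', b5, b6, b2.1, ?_⟩
    intro he
    apply b2.2
    have g1 := (mem_FT h.ok.c10).1 (hs hσ)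
    have g2 := (mem_FT h.ok.c10).1 (hs hσ')
    refine RB_inj j g1 g2 b3 ?_
    have : σ.2 = σ'.2 := by
      funext i
      have := congrFun he i
      simpa [rt] using this
    rw [this]
  have hsum : ∑ t ∈ I, ((PENK.Gc t.1 t.2 : ℝ) * Nat.gcd (PENK.dn t.1 1) (PENK.dn t.2 1) *
        Nat.gcd (PENK.dn t.1 (-1)) (PENK.dn t.2 (-1)) / (PENK.DD t.1 * PENK.DD t.2)) =
      ∑ t ∈ S', (PNI.GT j t.1 t.2 : ℝ) / ((PENK.DD t.1 : ℝ) * PENK.DD t.2) := by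
    rw [hS', Finset.sum_image hinj]
    apply Finset.sum_congr rfl
    intro t ht
    obtain ⟨σ, hσ, σ', hσ', e1, e2, -, -⟩ := hdata t ht
    have g1 := ((mem_FT h.ok.c10).1 (hs hσ)).gp
    have g2 := ((mem_FT h.ok.c10).1 (hs hσ')).gp
    simp only
    rw [← e1, ← e2, unrot_rt, unrot_rt, ← PNI.rot_GT (hpt σ hσ) (hpt σ' hσ') j, rot_rt, rot_rt,
      DD_rot0 g1 j, DD_rot0 g2 j]
    push_cast
    rfl
  rw [hsum]
  refine Hn X y0' S' ?_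
  intro t ht
  obtain ⟨t0, ht0, rfl⟩ := Finset.mem_image.1 ht
  obtain ⟨σ, hσ, σ', hσ', e1, e2, e3, e4⟩ := hdata t0 ht0
  simp only
  rw [← e1, ← e2, unrot_rt, unrot_rt, hε]
  refine ⟨hpt σ hσ, hpt σ' hσ', e4, ?_⟩
  have e5 := PNI.rot_Gc (hpt σ hσ) (hpt σ' hσ') j
  rw [rot_rt, rot_rt] at e5
  rw [← e5]
  exact e3

/-- windows, `j ≠ 10` -/
theorem large_W {p : Prm 10} {δ τ C1 : ℝ} (h : PO p δ τ) (hC1 : 1 ≤ C1) (j : Fin 11) {a b : ℝ}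
    (ha : p.em ≤ a) (ha' : a ≤ p.ep + p.ew) (hb : p.em ≤ b) (hb' : b ≤ p.ep + p.ew) :
    ∃ X₀ : ℕ, ∀ X ≥ X₀,
      prs2 p X j (FW p C1 X a b)
        (fun σ σ' => (X : ℝ) ^ (50 * p.ew / 8) < (GM2 j σ σ' : ℝ) ∧ σ' ≠ σ) ≤
        X * Real.log X ^ (-110 : ℝ) := by
  have hew := h.ok.ew0
  obtain ⟨q1, q2⟩ := qN_ok h.ok h.small ha (by linarith : a ≤ a + p.ew) (by linarith) hb
    (by linarith : b ≤ b + p.ew) (by linarith)
  obtain ⟨X₁, H1⟩ := large_aux h hC1 j (qN p a (a + p.ew) b (b + p.ew)) q1 q2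
    (Or.inr (qN_nar h.ok a b)) rfl
  obtain ⟨X₂, hX₂, H2⟩ := isPt_of h.ok h.small
  refine ⟨max X₁ X₂, fun X hX => ?_⟩
  refine H1 X ((le_max_left _ _).trans hX) _ (Finset.filter_subset _ _) ?_
  intro σ hσ
  unfold FW at hσ
  rw [Finset.mem_filter] at hσ
  exact (H2 X ((le_max_right _ _).trans hX) σ.2 ((mem_FT h.ok.c10).1 hσ.1).gp).2 a b hσ.2.1
    hσ.2.2.1 hσ.2.2.2.1 hσ.2.2.2.2

/-- base `P` -/
theorem large_P {p : Prm 10} {δ τ C1 : ℝ} (h : PO p δ τ) (hC1 : 1 ≤ C1) :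
    ∃ X₀ : ℕ, ∀ X ≥ X₀,
      prs2 p X 10 (FT p C1 X)
        (fun σ σ' => (X : ℝ) ^ (50 * p.ew / 8) < (GM2 10 σ σ' : ℝ) ∧ σ' ≠ σ) ≤
        X * Real.log X ^ (-110 : ℝ) := by
  have hew := h.ok.ew0
  obtain ⟨⟨a1, a2, a3, a4, a5, a6, a7⟩, ⟨b1, b2⟩, c, -⟩ := prm_nums h.ok h.small
  have hle : p.em ≤ p.ep + p.ew := by linarith
  obtain ⟨q1, q2⟩ := qN_ok h.ok h.small le_rfl hle (by linarith) le_rfl hle (by linarith)
  obtain ⟨X₁, H1⟩ := large_aux h hC1 10 (qN p p.em (p.ep + p.ew) p.em (p.ep + p.ew)) q1 q2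
    (Or.inl rfl) rfl
  obtain ⟨X₂, hX₂, H2⟩ := isPt_of h.ok h.small
  refine ⟨max X₁ X₂, fun X hX => ?_⟩
  refine H1 X ((le_max_left _ _).trans hX) _ (Finset.Subset.refl _) ?_
  intro σ hσ
  exact (H2 X ((le_max_right _ _).trans hX) σ.2 ((mem_FT h.ok.c10).1 hσ).gp).1

end Pool.Agent.PENM
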